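import Pool.Agent.Lib.MP_7cdc3e_gt.Q.Spec

/-!
# MP_7cdc3e_gt, part Q: the hypotheses for all half-spaces, also the degenerate ones
-/

set_option autoImplicit false

open HoloConj Pool.Agent.Lib.SingHom Module

namespace TightRP

namespace Q

private theorem two {A : Type} [TopologicalSpace A] (h : ¬ PreconnectedSpace A) :
    ∃ g : A → Fin 2, Continuous g ∧ Function.Surjective g := by
  rw [preconnectedSpace_iff_clopen] at h
  push Not at h
  obtain ⟨s, hs, hs1, hs2⟩ := h
  have hb : Continuous (s.boolIndicator) := (continuous_boolIndicator_iff_isClopen s).2 hs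
  let f : Bool → Fin 2 := fun b => cond b 0 1
  refine ⟨f ∘ s.boolIndicator, (continuous_of_discreteTopology).comp hb, ?_⟩
  intro i
  fin_cases i
  · obtain ⟨x, hx⟩ := hs1
    refine ⟨x, ?_⟩
    have : s.boolIndicator x = true := (s.mem_iff_boolIndicator x).1 hx
    show f (s.boolIndicator x) = 0
    rw [this]
    rfl
  · obtain ⟨x, hx⟩ := (Set.ne_univ_iff_exists_notMem s).1 hs2
    refine ⟨x, ?_⟩
    have : s.boolIndicator x = false := (s.notMem_iff_boolIndicator x).1 hx
    show f (s.boolIndicator x) = 1
    rw [this]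
    rfl

private theorem inj_univ (F : Type) [Field F] {M : Type} [TopologicalSpace M] (A : Set M) (n : ℕ)
    (hA : ∀ x, x ∈ A) : HInj F A n := by
  let j : C(M, A) := ⟨fun x => ⟨x, hA x⟩, by fun_prop⟩
  have h1 : j.comp (incl A) = ContinuousMap.id A := by
    ext x : 1
    rfl
  apply Function.LeftInverse.injective (g := Hmap F n j)
  intro z
  rw [← Hmap_comp_apply, h1, Hmap_id]
  rfl

private theorem inj_empty (F : Type) [Field F] {M : Type} [TopologicalSpace M] (A : Set M) (n : ℕ)
    (hA : ∀ x, x ∉ A) : HInj F A n := by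
  have h1 : Subsingleton (Hq F n A) := by
    have h2 : IsEmpty (C(Sx n, A)) := ⟨fun σ => hA _ (σ (stdSimplex.vertex 0)).2⟩
    have h3 : Subsingleton (SC F A n) := by
      show Subsingleton (C(Sx n, A) →₀ F)
      infer_instance
    have h4 : Subsingleton (Zc F A n) := inferInstance
    exact (cls_surjective (X := A) F n).subsingleton
  exact Function.injective_of_subsingleton _

theorem qSys2 (h1 : H0LowStmt) (h2 : H0PathStmt) : S_Sys2 := by
  intro F _ M _ _ N f hf hT
  have hinj : ∀ l b, ∀ n ≤ 2, HInj F (Hs f l b) n := by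
    intro l b n hn
    by_cases hl : l = 0
    · subst hl
      rcases lt_or_ge b 0 with hb | hb
      · exact inj_univ F _ n fun x => hb
      · exact inj_empty F _ n fun x hx => absurd (show b < 0 from hx) (not_lt.2 hb)
    · exact hT l b hl n hn
  refine ⟨fun l b => ?_, hinj⟩
  have h0 := hinj l b 0 (by omega)
  have hrk : Module.rank F (Hq F 0 (Hs f l b)) ≤ 1 := by
    have h3 := LinearMap.rank_le_of_injective (Hmap F 0 (incl (Hs f l b))) h0
    rw [h2 F M] at h3
    exact h3
  rw [isPreconnected_iff_preconnectedSpace]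
  by_contra hn
  obtain ⟨g, hg, hgs⟩ := two hn
  have h4 := (h1 F (Hs f l b) 2 g hg hgs).trans hrk
  have h5 : (2 : ℕ) ≤ 1 := by exact_mod_cast h4
  omega

end Q

end TightRP
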