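import Pool.Agent.Lib.MP_7cdc3e_gt.Q.Spec

/-!
# C32, part Q, Cvh: the convex hull of a compact set is compact
-/

set_option autoImplicit false

open Module

namespace TightRP

namespace Q

private theorem cvh_sub (N : ℕ) (s : Set (En N)) (y : En N) (hy : y ∈ s) (x : En N)
    (hx : x ∈ convexHull ℝ s) : ∃ (t : Fin (N + 1) → ℝ) (p : Fin (N + 1) → En N),
      t ∈ stdSimplex ℝ (Fin (N + 1)) ∧ (∀ j, p j ∈ s) ∧ ∑ j, t j • p j = x := by
  classical
  obtain ⟨ι, _, z, w, hz, haff, hw, hw1, hx⟩ := eq_pos_convex_span_of_mem_convexHull hx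
  have hcard : Fintype.card ι ≤ Fintype.card (Fin (N + 1)) := by
    have h := haff.card_le_finrank_succ
    have h' : finrank ℝ (vectorSpan ℝ (Set.range z)) ≤ finrank ℝ (En N) :=
      Submodule.finrank_le _
    have h'' : finrank ℝ (En N) = N := by simp
    rw [Fintype.card_fin]
    omega
  obtain ⟨e⟩ := Function.Embedding.nonempty_of_card_le hcard
  have hsum : ∀ {A : Type} [AddCommMonoid A] (F : Fin (N + 1) → A),
      (∀ j, (¬ ∃ i, e i = j) → F j = 0) → ∑ j, F j = ∑ i, F (e i) := by
    intro A _ F hF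
    rw [← Finset.sum_map Finset.univ e F]
    symm
    refine Finset.sum_subset (Finset.subset_univ _) fun j _ hj => hF j ?_
    rintro ⟨i, hi⟩
    exact hj (Finset.mem_map.mpr ⟨i, Finset.mem_univ _, hi⟩)
  refine ⟨Function.extend e w 0, Function.extend e z (fun _ => y), ⟨?_, ?_⟩, ?_, ?_⟩
  · intro j
    by_cases hj : ∃ i, e i = j
    · obtain ⟨i, rfl⟩ := hj
      rw [e.injective.extend_apply]
      exact (hw i).le
    · rw [Function.extend_apply' _ _ _ hj]
      exact le_rfl
  · rw [hsum _ fun j hj => by rw [Function.extend_apply' _ _ _ hj]; rfl, ← hw1]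
    exact Finset.sum_congr rfl fun i _ => e.injective.extend_apply _ _ _
  · intro j
    by_cases hj : ∃ i, e i = j
    · obtain ⟨i, rfl⟩ := hj
      rw [e.injective.extend_apply]
      exact hz ⟨i, rfl⟩
    · rw [Function.extend_apply' _ _ _ hj]
      exact hy
  · rw [hsum _ fun j hj => by rw [Function.extend_apply' _ _ _ hj]; exact zero_smul _ _, ← hx]
    exact Finset.sum_congr rfl fun i _ => by
      rw [e.injective.extend_apply, e.injective.extend_apply]

theorem qCvh : S_Cvh := by
  intro N s hs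
  rcases s.eq_empty_or_nonempty with rfl | ⟨y, hy⟩
  · rw [convexHull_empty]
    exact isCompact_empty
  · have hK : IsCompact ((stdSimplex ℝ (Fin (N + 1))) ×ˢ
        (Set.pi Set.univ (fun _ : Fin (N + 1) => s))) :=
      (isCompact_stdSimplex ℝ (Fin (N + 1))).prod (isCompact_univ_pi fun _ => hs)
    have hφ : Continuous (fun q : (Fin (N + 1) → ℝ) × (Fin (N + 1) → En N) =>
        ∑ j, q.1 j • q.2 j) := by
      fun_prop
    have := hK.image hφ
    convert this using 1
    ext x
    constructor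
    · intro hx
      obtain ⟨t, p, ht, hp, hsum⟩ := cvh_sub N s y hy x hx
      exact ⟨(t, p), ⟨ht, fun j _ => hp j⟩, hsum⟩
    · rintro ⟨⟨t, p⟩, ⟨ht, hp⟩, rfl⟩
      exact (convex_convexHull ℝ s).sum_mem (fun j _ => ht.1 j) ht.2
        fun j _ => subset_convexHull ℝ s (hp j (Set.mem_univ j))

end Q

end TightRP
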