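import Pool.Agent.Lib.MP_7cdc3e_gt.Q.Spec

/-!
# MP_7cdc3e_gt, Q/Cov: the projection `S³ → RP³` is a covering map, lifts of simplices
-/

set_option autoImplicit false

open HoloConj Pool.Agent.Lib.SingHom Module

namespace TightRP

namespace Q

private theorem cov_mk_eq (x y : S3) : mk x = mk y ↔ x = y ∨ x = -y := by
  have h1 : mk x = mk y ↔ antipodal.r x y := by
    unfold mk
    exact Quotient.eq
  rw [h1]
  constructor
  · rintro (h | h)
    · exact Or.inl (Subtype.ext h)
    · exact Or.inr (Subtype.ext h)
  · rintro (h | h)
    · exact Or.inl (congrArg Subtype.val h)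
    · exact Or.inr (congrArg Subtype.val h)

/-- the action of the group with two elements -/
@[instance_reducible]
private noncomputable def covAct : MulAction ℤˣ S3 where
  smul u x := if u = 1 then x else -x
  one_smul x := if_pos rfl
  mul_smul u v x := by
    change (if u * v = 1 then x else -x) =
      if u = 1 then (if v = 1 then x else -x) else -(if v = 1 then x else -x)
    rcases Int.units_eq_one_or u with rfl | rfl <;> rcases Int.units_eq_one_or v with rfl | rfl <;>
      simp

private theorem cov_map : IsCoveringMap mk := by
  let _ := covAct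
  have hs : ∀ (u : ℤˣ) (x : S3), u • x = if u = 1 then x else -x := fun u x => rfl
  have h : IsQuotientCoveringMap mk ℤˣ := by
    refine { toIsQuotientMap := ?_, toContinuousConstSMul := ?_, apply_eq_iff_mem_orbit := ?_,
             disjoint := ?_ }
    · exact isQuotientMap_quotient_mk'
    · constructor
      intro u
      rcases Int.units_eq_one_or u with rfl | rfl
      · exact continuous_id
      · exact continuous_neg
    · intro x y
      rw [cov_mk_eq]
      constructor
      · rintro (h | h)
        · exact ⟨1, h.symm⟩
        · refine ⟨-1, ?_⟩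
          change (-1 : ℤˣ) • y = x
          rw [hs, if_neg (by decide), h]
      · rintro ⟨u, hu⟩
        change u • y = x at hu
        rcases Int.units_eq_one_or u with rfl | rfl
        · left
          rw [hs, if_pos rfl] at hu
          exact hu.symm
        · right
          rw [hs, if_neg (by decide)] at hu
          exact hu.symm
    · intro x
      refine ⟨{y | 0 < inner ℝ (x : EuclideanSpace ℝ (Fin 4)) (y : EuclideanSpace ℝ (Fin 4))},
        ?_, ?_⟩
      · apply IsOpen.mem_nhds
        · exact isOpen_lt continuous_const (continuous_const.inner continuous_subtype_val)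
        · change 0 < inner ℝ (x : EuclideanSpace ℝ (Fin 4)) (x : EuclideanSpace ℝ (Fin 4))
          rw [real_inner_self_eq_norm_sq, norm_eq_of_mem_sphere x]
          norm_num
      · rintro u ⟨z, ⟨y, hy, hyz⟩, hz⟩
        rcases Int.units_eq_one_or u with rfl | rfl
        · rfl
        · exfalso
          change (-1 : ℤˣ) • y = z at hyz
          rw [hs, if_neg (by decide)] at hyz
          subst hyz
          change 0 < inner ℝ (x : EuclideanSpace ℝ (Fin 4)) (y : EuclideanSpace ℝ (Fin 4)) at hy
          change 0 < inner ℝ (x : EuclideanSpace ℝ (Fin 4)) (-(y : EuclideanSpace ℝ (Fin 4)))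
            at hz
          rw [inner_neg_right] at hz
          linarith
  exact h.isCoveringMap

theorem qCov : S_Cov := by
  refine ⟨cov_map, ?_, ?_⟩
  · intro n σ
    have hc : Convex ℝ (stdSimplex ℝ (Fin (n + 1))) := convex_stdSimplex ℝ (Fin (n + 1))
    have : LocallyPathConnectedSpace (Sx n) := hc.locallyPathConnectedSpace
    have : ContractibleSpace (Sx n) :=
      hc.contractibleSpace ⟨_, (stdSimplex.vertex (S := ℝ) (0 : Fin (n + 1))).2⟩
    obtain ⟨e₀, he₀⟩ := Quotient.exists_rep (σ (stdSimplex.vertex 0))
    obtain ⟨τ, ⟨-, hτ⟩, -⟩ := cov_map.existsUnique_continuousMap_lifts σ (stdSimplex.vertex 0) e₀ he₀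
    exact ⟨τ, fun t => congrFun hτ t⟩
  · intro T _ _ τ τ' h
    rcases isEmpty_or_nonempty T with hT | ⟨⟨t₀⟩⟩
    · left
      ext t
      exact hT.elim t
    · rcases (cov_mk_eq _ _).1 (h t₀) with h0 | h0
      · left
        have h1 : (τ : T → S3) = τ' := cov_map.eq_of_comp_eq τ.continuous τ'.continuous
          (funext h) t₀ h0
        exact DFunLike.coe_injective h1
      · right
        have h1 : (τ' : T → S3) = fun t => -τ t := by
          refine cov_map.eq_of_comp_eq τ'.continuous τ.continuous.neg ?_ t₀ ?_
          · funext t
            change mk (τ' t) = mk (-τ t)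
            rw [← h t]
            exact (cov_mk_eq _ _).2 (Or.inr (neg_neg _).symm)
          · rw [h0, neg_neg]
        intro t
        exact congrFun h1 t

end Q

end TightRP
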