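import Pool.Agent.Lib.MP_7cdc3e_gt.Q.Spec

/-!
# MP_7cdc3e_gt, part Q: there are no faces of dimension at least four whose proper faces are cells
-/

set_option autoImplicit false

open Module

namespace TightRP

namespace Q

private lemma sphere_locEuc (x : S3) : ∃ U : Set S3, IsOpen U ∧ x ∈ U ∧
    Nonempty (U ≃ₜ EuclideanSpace ℝ (Fin 3)) := by
  have : Fact (finrank ℝ (EuclideanSpace ℝ (Fin 4)) = 3 + 1) := ⟨by simp⟩
  let c := stereographic' 3 (-x)
  refine ⟨c.source, c.open_source, ?_, ?_⟩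
  · rw [stereographic'_source]
    intro h
    have h1 : x = -x := h
    have h2 : (x : EuclideanSpace ℝ (Fin 4)) = -x := congrArg Subtype.val h1
    have h5 : (2 : ℝ) • (x : EuclideanSpace ℝ (Fin 4)) = 0 := by
      rw [two_smul]
      nth_rewrite 1 [h2]
      exact neg_add_cancel _
    have h3 : (x : EuclideanSpace ℝ (Fin 4)) = 0 :=
      (smul_eq_zero.1 h5).resolve_left two_ne_zero
    have h4 : ‖(x : EuclideanSpace ℝ (Fin 4))‖ = 1 := by
      have := x.2
      rwa [mem_sphere_zero_iff_norm] at this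
    rw [h3, norm_zero] at h4
    exact zero_ne_one h4
  · have ht : c.target = Set.univ := stereographic'_target _
    exact ⟨c.toHomeomorphSourceTarget.trans ((Homeomorph.setCongr ht).trans
      (Homeomorph.Set.univ _))⟩

theorem qDm4 (h1 : S_Rl) (h2 : S_Rad) (h3 : S_Sec) : S_Dm4 := by
  intro M _ _ _ _ N f hM hN hf hsub Φ hΦ hP
  by_contra hdm
  obtain ⟨y, hrel⟩ := h1 M N f Φ hΦ
  obtain ⟨ρ, hρc, hρt, hρf⟩ := h2 M N f hf Φ y hΦ hrel
  obtain ⟨s, hs⟩ := h3 M (En N) (Nz (vectorSpan ℝ Φ)) f ρ hf hρc (by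
    intro w
    obtain ⟨Ψ, hΨ, hsub, hne, hmem⟩ := hρf w
    exact hP Ψ hΨ hsub hne _ hmem)
  have hle : finrank ℝ (EuclideanSpace ℝ (Fin 4)) ≤ finrank ℝ (vectorSpan ℝ Φ) := by
    have h4 : ¬ finrank ℝ (vectorSpan ℝ Φ) ≤ 3 := hdm
    rw [finrank_euclideanSpace_fin]
    omega
  obtain ⟨L, hL⟩ := finrank_le_iff_exists_linearMap.1 hle
  have hLc : Continuous L := L.continuous_of_finiteDimensional
  have hL0 : ∀ w : S3, L (w : EuclideanSpace ℝ (Fin 4)) ≠ 0 := by
    intro w h
    have h5 : (w : EuclideanSpace ℝ (Fin 4)) = 0 := hL (by rw [h, map_zero])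
    have h4 : ‖(w : EuclideanSpace ℝ (Fin 4))‖ = 1 := by
      have := w.2
      rwa [mem_sphere_zero_iff_norm] at this
    rw [h5, norm_zero] at h4
    exact zero_ne_one h4
  let k : S3 → Nz (vectorSpan ℝ Φ) := fun w => ⟨L (w : EuclideanSpace ℝ (Fin 4)), hL0 w⟩
  have hk : Continuous k := (hLc.comp continuous_subtype_val).subtype_mk _
  let h : S3 → M := fun w => s (k w)
  have hh : Continuous h := s.continuous.comp hk
  have hinj : Function.Injective h := by
    intro w w' hww
    have e1 : ρ (k w) = ρ (k w') := by rw [← hs, ← hs]; exact congrArg f hww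
    obtain ⟨t, ht, e2⟩ := hρt (k w)
    obtain ⟨t', ht', e3⟩ := hρt (k w')
    rw [e2, e3] at e1
    have e4 : t • ((L w : vectorSpan ℝ Φ) : En N) = t' • ((L w' : vectorSpan ℝ Φ) : En N) :=
      add_left_cancel e1
    have e5 : L (t • (w : EuclideanSpace ℝ (Fin 4))) = L (t' • (w' : EuclideanSpace ℝ (Fin 4))) := by
      rw [map_smul, map_smul]
      exact Subtype.ext e4
    have e6 := hL e5
    have hw : ‖(w : EuclideanSpace ℝ (Fin 4))‖ = 1 := by
      have := w.2
      rwa [mem_sphere_zero_iff_norm] at this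
    have hw' : ‖(w' : EuclideanSpace ℝ (Fin 4))‖ = 1 := by
      have := w'.2
      rwa [mem_sphere_zero_iff_norm] at this
    have e7 : t = t' := by
      have e8 := congrArg norm e6
      rw [norm_smul, norm_smul, hw, hw', mul_one, mul_one, Real.norm_of_nonneg ht.le,
        Real.norm_of_nonneg ht'.le] at e8
      exact e8
    rw [e7] at e6
    exact Subtype.ext (smul_right_injective _ ht'.ne' e6)
  have : Nonempty S3 := by
    have : (Metric.sphere (0 : EuclideanSpace ℝ (Fin 4)) 1).Nonempty :=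
      NormedSpace.sphere_nonempty.2 zero_le_one
    exact this.to_subtype
  have hsurj := InvDom.surjective_of_injective sphere_locEuc hM h hh hinj
  let R : Submodule ℝ (En N) := LinearMap.range ((vectorSpan ℝ Φ).subtype.comp L)
  have hR : R < ⊤ := by
    rw [lt_top_iff_ne_top]
    intro htop
    have h6 : finrank ℝ R ≤ finrank ℝ (EuclideanSpace ℝ (Fin 4)) :=
      LinearMap.finrank_range_le _
    rw [htop, finrank_top, finrank_euclideanSpace_fin, finrank_euclideanSpace_fin] at h6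
    omega
  obtain ⟨l, hl0, hl⟩ := R.exists_le_ker_of_lt_top hR
  apply hl0
  apply hsub l (l y)
  intro x
  obtain ⟨w, rfl⟩ := hsurj x
  have e1 : f (h w) = ρ (k w) := hs _
  obtain ⟨t, ht, e2⟩ := hρt (k w)
  rw [e1, e2, map_add, map_smul]
  have e3 : ((k w : vectorSpan ℝ Φ) : En N) ∈ R :=
    ⟨(w : EuclideanSpace ℝ (Fin 4)), rfl⟩
  have e4 : l ((k w : vectorSpan ℝ Φ) : En N) = 0 := hl e3
  rw [e4, smul_zero, add_zero]

end Q

end TightRP
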