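import Pool.Agent.Lib.MP_7cdc3e_gt.Q.Spec

/-!
# MP_7cdc3e_gt, part Q: the dimension of a proper face is smaller
-/

set_option autoImplicit false

open Module
open scoped Topology

namespace TightRP

namespace Q

theorem qDrp : S_Drp := by
  intro M _ N f Φ Ψ hΦ hΨ hsub hne
  by_contra hlt
  apply hne
  have hle : vectorSpan ℝ Ψ ≤ vectorSpan ℝ Φ := vectorSpan_mono ℝ hsub
  have heq : vectorSpan ℝ Ψ = vectorSpan ℝ Φ :=
    Submodule.eq_of_le_of_finrank_le hle (by unfold dm at hlt; omega)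
  apply Set.Subset.antisymm hsub
  intro z hz
  obtain ⟨y, hy⟩ := hΨ.ne.intrinsicInterior hΨ.cvx
  rw [mem_intrinsicInterior] at hy
  obtain ⟨y0, hy0, rfl⟩ := hy
  have hyΨ : (y0 : En N) ∈ Ψ := by
    have h1 : y0 ∈ ((↑) ⁻¹' Ψ : Set (affineSpan ℝ Ψ)) := interior_subset hy0
    exact h1
  have hv : z - (y0 : En N) ∈ vectorSpan ℝ Ψ := by
    rw [heq]
    have := vsub_mem_vectorSpan ℝ hz (hsub hyΨ)
    simpa using this
  -- the curve
  have hmem : ∀ e : ℝ, (y0 : En N) - e • (z - (y0 : En N)) ∈ affineSpan ℝ Ψ := by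
    intro e
    have h1 : (-(e • (z - (y0 : En N)))) ∈ (affineSpan ℝ Ψ).direction := by
      rw [direction_affineSpan]
      exact neg_mem (Submodule.smul_mem _ _ hv)
    have h2 := AffineSubspace.vadd_mem_of_mem_direction h1 y0.2
    rw [vadd_eq_add] at h2
    rw [sub_eq_add_neg, add_comm]
    exact h2
  let γ : ℝ → affineSpan ℝ Ψ := fun e => ⟨(y0 : En N) - e • (z - (y0 : En N)), hmem e⟩
  have hγ : Continuous γ := by
    apply Continuous.subtype_mk
    fun_prop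
  have hγ0 : γ 0 = y0 := by
    apply Subtype.ext
    simp [γ]
  have hnb : ∀ᶠ e in 𝓝 (0 : ℝ), γ e ∈ interior ((↑) ⁻¹' Ψ : Set (affineSpan ℝ Ψ)) := by
    apply hγ.continuousAt.eventually_mem
    rw [hγ0]
    exact isOpen_interior.mem_nhds hy0
  have hnb' : ∀ᶠ e in 𝓝[>] (0 : ℝ), γ e ∈ interior ((↑) ⁻¹' Ψ : Set (affineSpan ℝ Ψ)) :=
    hnb.filter_mono nhdsWithin_le_nhds
  obtain ⟨e, he1, he2⟩ := (hnb'.and self_mem_nhdsWithin).exists
  have he : 0 < e := he2
  have hγΨ : (γ e : En N) ∈ Ψ := by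
    have h1 : γ e ∈ ((↑) ⁻¹' Ψ : Set (affineSpan ℝ Ψ)) := interior_subset he1
    exact h1
  apply hΨ.ext.left_mem_of_mem_openSegment (hΦ.ext.subset hz) (hΨ.ext.subset hγΨ) hyΨ
  have h1 : (1 : ℝ) + e ≠ 0 := by positivity
  refine ⟨e / (1 + e), 1 / (1 + e), by positivity, by positivity,
    by rw [← add_div, add_comm e 1]; exact div_self h1, ?_⟩
  have h2 : (e / (1 + e)) • z + (1 / (1 + e)) • (y0 - e • (z - y0) : En N)
      = (1 / (1 + e) + e / (1 + e)) • (y0 : En N) := by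
    module
  have h3 : 1 / (1 + e) + e / (1 + e) = 1 := by rw [← add_div]; exact div_self h1
  change (e / (1 + e)) • z + (1 / (1 + e)) • (y0 - e • (z - y0) : En N) = y0
  rw [h2, h3, one_smul]

end Q

end TightRP
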