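import Pool.Agent.Lib.MP_7cdc3e_gt.Q.Spec

/-!
# MP_7cdc3e_gt, part Q, Exp: exposed faces of faces
-/

set_option autoImplicit false

open HoloConj Pool.Agent.Lib.SingHom Module

namespace TightRP

namespace Q

theorem qExp : S_Exp := by
  intro M _ N f Φ g c hΦ hle hne
  have hgc : Continuous g := LinearMap.continuous_of_finiteDimensional g
  refine ⟨?_, ?_, ?_, hne⟩
  · refine hΦ.ext.trans ⟨fun y hy => hy.1, ?_⟩
    rintro x hx x' hx' z ⟨hz, hzc⟩ ⟨a, a', ha, ha', haa, rfl⟩
    refine ⟨hx, ?_⟩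
    rw [map_add, map_smul, map_smul, smul_eq_mul, smul_eq_mul] at hzc
    have h1 := hle x hx
    have h2 := hle x' hx'
    refine le_antisymm h1 ?_
    by_contra h3
    have h3' := not_le.1 h3
    have h4 : a * g x < a * c := mul_lt_mul_of_pos_left h3' ha
    have h5 : a' * g x' ≤ a' * c := mul_le_mul_of_nonneg_left h2 ha'.le
    have h6 : a * c + a' * c = c := by rw [← add_mul, haa, one_mul]
    linarith
  · have h1 : {y | y ∈ Φ ∧ g y = c} = Φ ∩ ({y | g y ≤ c} ∩ {y | c ≤ g y}) := by
      ext y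
      constructor
      · rintro ⟨h, h'⟩
        exact ⟨h, le_of_eq h', le_of_eq h'.symm⟩
      · rintro ⟨h, h', h''⟩
        exact ⟨h, le_antisymm h' h''⟩
    rw [h1]
    exact hΦ.cvx.inter ((convex_halfSpace_le g.isLinear c).inter
      (convex_halfSpace_ge g.isLinear c))
  · exact hΦ.cls.inter (isClosed_eq hgc continuous_const)

end Q

end TightRP
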