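import Pool.Agent.Lib.MP_7cdc3e_gt.Q.Spec

/-!
# MP_7cdc3e_gt, part Q: Lemma FILL
-/

set_option autoImplicit false

open HoloConj Pool.Agent.Lib.SingHom Module

namespace TightRP

namespace Q

theorem qFil (h1 : S_Drp) (h2 : S_Dm4) (h3 : S_Sur1) (h4 : S_Sur2) (h5 : S_Hk) (h6 : S_Inj)
    (h7 : S_Ne) : S_Fil := by
  intro F _ M _ _ _ _ N f hLoc hN hf hLI hSub hCon hH1 hH2
  have ev : ∀ (n : ℕ) (Φ Ψ : Set (En N)), Ψ ⊆ Φ → Ev F f n Φ → Ev F f n Ψ := by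
    rintro n Φ Ψ hs ⟨l, b, hl, hz⟩
    exact ⟨l, b, fun y hy => hl y (hs hy), hz⟩
  have key : ∀ n : ℕ, ∀ Φ, dm Φ = n → Fac f Φ → Ev F f 1 Φ → Ev F f 2 Φ →
      Cell f Φ ∧ dm Φ ≤ 3 := by
    intro n
    induction n using Nat.strong_induction_on with
    | _ n ih =>
      intro Φ hn hΦ e1 e2
      have PC : PCell f Φ := fun Ψ hΨ hs hne =>
        (ih (dm Ψ) (by rw [← hn]; exact h1 M N f Φ Ψ hΦ hΨ hs hne) Ψ rfl hΨ (ev 1 Φ Ψ hs e1)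
          (ev 2 Φ Ψ hs e2)).1
      have hd : dm Φ ≤ 3 := h2 M N f hLoc hN hf hSub Φ hΦ PC
      have hsur : ∀ y ∈ Φ, ∃ x, f x = y := by
        have hcases : dm Φ = 0 ∨ dm Φ = 1 ∨ dm Φ = 2 ∨ dm Φ = 3 := by omega
        rcases hcases with h | h | h | h
        · intro y hy
          have hbot : vectorSpan ℝ Φ = ⊥ := Submodule.finrank_eq_zero.1 h
          obtain ⟨x, hx, -⟩ := h7 M N f hf Φ hΦ 0 0 ⟨y, hy, le_rfl⟩
          refine ⟨x, ?_⟩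
          have h8 := vsub_mem_vectorSpan ℝ hx hy
          rw [hbot, Submodule.mem_bot] at h8
          exact vsub_eq_zero_iff_eq.1 h8
        · exact h3 M N f hf hCon Φ hΦ PC h
        · exact h4 F M N f 1 hf hH1 Φ hΦ PC e1 (h5 F (vectorSpan ℝ Φ) 1 (Or.inl rfl) h)
        · exact h4 F M N f 2 hf hH2 Φ hΦ PC e2 (h5 F (vectorSpan ℝ Φ) 2 (Or.inr rfl) h)
      exact ⟨h6 M N f hf hLI hCon Φ hΦ PC hsur, hd⟩
  intro Φ hΦ e1 e2
  exact key _ Φ rfl hΦ e1 e2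

end Q

end TightRP
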