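import Pool.Agent.Lib.MP_7cdc3e_gt.Q.Spec

/-!
# MP_7cdc3e_gt, part Q: FilE, Lemma FILL for projective space (helper50)
-/

set_option autoImplicit false

open HoloConj Pool.Agent.Lib.SingHom Module

namespace TightRP

namespace Q

theorem qFilE (h1 : S_Fil) (h2 : S_Sys2) (h3 : S_E12) (h4 : RPTopStmt) : S_FilE := by
  intro F _ N f h5 hf hloc hsub ht Φ hΦ hE
  obtain ⟨t2, le3, pc⟩ := h4
  have := t2
  have := pc
  have : CompactSpace RP3 := inferInstanceAs (CompactSpace (Quotient antipodal))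
  obtain ⟨c0, hinj⟩ := h2 F RP3 N f hf ht
  have hE2 : Ev F f 2 Φ := by
    obtain ⟨l, b, hl, hz⟩ := hE
    have ho : IsOpen (Hs f l b) :=
      isOpen_lt continuous_const (l.continuous_of_finiteDimensional.comp hf)
    exact ⟨l, b, hl, h3 F (Hs f l b) ho (c0 l b) hz⟩
  exact h1 F RP3 N f le3 h5 hf hloc hsub c0 (fun l b => hinj l b 1 (by norm_num))
    (fun l b => hinj l b 2 le_rfl) Φ hΦ hE hE2

end Q

end TightRP
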