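import Pool.Agent.Lib.MP_7cdc3e_gt.Q.Spec

/-!
# MP_7cdc3e_gt, part Q: homology of punctured spaces
-/

set_option autoImplicit false

open HoloConj Pool.Agent.Lib.SingHom Module

namespace TightRP

namespace Q

theorem qHk (h1 : CircleStmt) (h2 : SuspStmt) (h3 : HomeoStmt) : S_Hk := by
  intro F _ W _ _ _ k hk hW hsub
  have e : W ≃L[ℝ] EuclideanSpace ℝ (Fin (k + 1)) :=
    ContinuousLinearEquiv.ofFinrankEq (by rw [hW, finrank_euclideanSpace_fin])
  let g : Nz W ≃ₜ Pn (k + 1) := e.toHomeomorph.subtype (fun x => by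
    show x ≠ 0 ↔ e x ≠ 0
    rw [ne_eq, ne_eq, map_eq_zero_iff e e.injective])
  have hsub' : Subsingleton (Hq F k (Pn (k + 1))) := (h3 F _ _ g k).2.subsingleton
  have hc : ¬ Subsingleton (Hq F 1 (Pn 2)) := by
    intro h
    have h4 := h1 F
    rw [rank_subsingleton'] at h4
    exact zero_ne_one h4
  rcases hk with rfl | rfl
  · exact hc hsub'
  · obtain ⟨e2⟩ := (h2 F 2).1 0
    exact hc (e2.symm.injective.subsingleton)

end Q

end TightRP
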