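import Pool.Agent.Lib.MP_7cdc3e_gt.Q.Spec

/-!
# MP_7cdc3e_gt, part Q: injectivity on a face
-/

set_option autoImplicit false

open HoloConj Pool.Agent.Lib.SingHom Module

namespace TightRP

namespace Q

private theorem inj_bdd {M : Type} [TopologicalSpace M] [CompactSpace M] {N : ℕ} {f : M → En N}
    (hf : Continuous f) {Φ : Set (En N)} (hΦ : Fac f Φ) : ∃ R : ℝ, ∀ z ∈ Φ, ‖z‖ ≤ R := by
  have h1 : Bornology.IsBounded (Kf f) := by
    unfold Kf
    rw [isBounded_convexHull]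
    exact (isCompact_range hf).isBounded
  obtain ⟨R, hR⟩ := h1.exists_norm_le
  exact ⟨R, fun z hz => hR z (hΦ.ext.1 hz)⟩

private theorem inj_closed {M : Type} [TopologicalSpace M] {N : ℕ} {f : M → En N}
    (hf : Continuous f) (hloc : LocInj f) {Φ : Set (En N)} (hcl : IsClosed Φ) :
    IsClosed {q : M × M | q.1 ≠ q.2 ∧ f q.1 = f q.2 ∧ f q.1 ∈ Φ} := by
  rw [← isOpen_compl_iff, isOpen_iff_mem_nhds]
  intro q hq
  by_cases hne : q.1 = q.2
  · obtain ⟨U, hU, hinj⟩ := hloc q.1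
    have h1 : U ×ˢ U ∈ nhds q := prod_mem_nhds hU (hne ▸ hU)
    refine Filter.mem_of_superset h1 ?_
    rintro q' ⟨ha, hb⟩ ⟨h2, h3, _⟩
    exact h2 (hinj ha hb h3)
  · have hC : IsClosed {q : M × M | f q.1 = f q.2 ∧ f q.1 ∈ Φ} :=
      (isClosed_eq (hf.comp continuous_fst) (hf.comp continuous_snd)).inter
        (hcl.preimage (hf.comp continuous_fst))
    refine Filter.mem_of_superset (hC.isOpen_compl.mem_nhds (fun h => hq ⟨hne, h⟩)) ?_
    intro q' hq' h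
    exact hq' h.2

/-- the case of a point -/
private theorem inj_point {M : Type} [TopologicalSpace M] [T2Space M] {X : Set M}
    (hX : IsPreconnected X) {p p' : M} (hp : p ∈ X) (hp' : p' ∈ X) (hne : p ≠ p') {U : Set M}
    (hU : U ∈ nhds p) (h : ∀ x ∈ X, x ∈ U → x = p) : False := by
  obtain ⟨x, hx, hx1, hx2⟩ := hX (interior U) {p}ᶜ isOpen_interior isOpen_compl_singleton
    (fun x _ => by
      by_cases hxp : x = p
      · left
        rw [hxp]
        exact mem_interior_iff_mem_nhds.2 hU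
      · exact Or.inr hxp)
    ⟨p, hp, mem_interior_iff_mem_nhds.2 hU⟩ ⟨p', hp', fun h => hne h.symm⟩
  exact hx2 (h x hx (interior_subset hx1))

/-- the punctured neighbourhoods of `y` in `D` are preconnected -/
private theorem inj_D {N : ℕ} {Φ : Set (En N)} (hcv : Convex ℝ Φ) (g : En N →ₗ[ℝ] ℝ) {y z₀ : En N}
    (hy : y ∈ Φ) (hz₀ : z₀ ∈ Φ) (hg : g y < g z₀) {r : ℝ} (hr : 0 < r) :
    IsPreconnected {z | (z ∈ Φ ∧ g y ≤ g z) ∧ z ≠ y ∧ dist z y < r} := by
  obtain ⟨t, ht0, ht1, htr⟩ : ∃ t : ℝ, 0 < t ∧ t ≤ 1 ∧ t * ‖z₀ - y‖ < r := by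
    have h1 : 0 < ‖z₀ - y‖ + 1 := by positivity
    refine ⟨min 1 (r / (‖z₀ - y‖ + 1)), lt_min one_pos (div_pos hr h1), min_le_left _ _, ?_⟩
    have h2 : min 1 (r / (‖z₀ - y‖ + 1)) * ‖z₀ - y‖ ≤ r / (‖z₀ - y‖ + 1) * ‖z₀ - y‖ :=
      mul_le_mul_of_nonneg_right (min_le_right _ _) (norm_nonneg _)
    refine lt_of_le_of_lt h2 ?_
    rw [div_mul_eq_mul_div, div_lt_iff₀ h1]
    nlinarith [norm_nonneg (z₀ - y)]
  obtain ⟨z₁, hz₁⟩ : ∃ z₁, z₁ = y + t • (z₀ - y) := ⟨_, rfl⟩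
  have hgz₁ : g z₁ = g y + t * (g z₀ - g y) := by
    rw [hz₁, map_add, map_smul, map_sub, smul_eq_mul]
  have hgz₁' : g y < g z₁ := by
    rw [hgz₁]
    have : 0 < t * (g z₀ - g y) := mul_pos ht0 (by linarith)
    linarith
  have hz₁Φ : z₁ ∈ Φ := by
    have h1 := hcv hy hz₀ (a := 1 - t) (b := t) (by linarith) ht0.le (by ring)
    have h2 : z₁ = (1 - t) • y + t • z₀ := by
      rw [hz₁, smul_sub, sub_smul, one_smul]
      abel
    rw [h2]
    exact h1
  have hz₁d : dist z₁ y < r := by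
    rw [hz₁, dist_eq_norm, add_sub_cancel_left, norm_smul, Real.norm_of_nonneg ht0.le]
    exact htr
  refine isPreconnected_of_forall z₁ fun z hz => ?_
  obtain ⟨⟨hzΦ, hgz⟩, hzy, hzd⟩ := hz
  refine ⟨segment ℝ z₁ z, ?_, left_mem_segment ℝ z₁ z, right_mem_segment ℝ z₁ z,
    (convex_segment z₁ z).isPreconnected⟩
  rintro w ⟨α, β, hα, hβ, hαβ, rfl⟩
  have hgw : g (α • z₁ + β • z) = α * g z₁ + β * g z := by
    rw [map_add, map_smul, map_smul, smul_eq_mul, smul_eq_mul]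
  have hw : g y ≤ α * g z₁ + β * g z := by
    have h1 : g y = α * g y + β * g y := by rw [← add_mul, hαβ, one_mul]
    rw [h1]
    exact add_le_add (mul_le_mul_of_nonneg_left hgz₁'.le hα) (mul_le_mul_of_nonneg_left hgz hβ)
  refine ⟨⟨hcv hz₁Φ hzΦ hα hβ hαβ, ?_⟩, ?_, ?_⟩
  · rw [hgw]
    exact hw
  · intro he
    rcases eq_or_lt_of_le hα with h | h
    · have hβ1 : β = 1 := by linarith
      rw [← h, hβ1, zero_smul, zero_add, one_smul] at he
      exact hzy he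
    · have h1 : g y = α * g z₁ + β * g z := by rw [← hgw, he]
      have h2 : g y = α * g y + β * g y := by rw [← add_mul, hαβ, one_mul]
      have h3 : α * g y < α * g z₁ := mul_lt_mul_of_pos_left hgz₁' h
      have h4 : β * g y ≤ β * g z := mul_le_mul_of_nonneg_left hgz hβ
      linarith
  · exact (convex_ball y r) (Metric.mem_ball.2 hz₁d) (Metric.mem_ball.2 hzd) hα hβ hαβ

/-- the topological part -/
private theorem inj_top {M : Type} [TopologicalSpace M] [T2Space M] [CompactSpace M] {N : ℕ}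
    {f : M → En N} (hf : Continuous f) (hloc : LocInj f) {D : Set (En N)} (hD : IsClosed D)
    {y : En N} (hX : IsPreconnected {x | f x ∈ D}) (hsurj : ∀ z ∈ D, ∃ x, f x = z)
    (huni : ∀ z ∈ D, z ≠ y → ∀ x x', f x = z → f x' = z → x = x')
    (hDr : ∀ r : ℝ, 0 < r → IsPreconnected {z | z ∈ D ∧ z ≠ y ∧ dist z y < r})
    {p p' : M} (hyD : y ∈ D) (hp : f p = y) (hp' : f p' = y) (hne : p ≠ p') : False := by
  obtain ⟨U, hU, hinj⟩ := hloc p
  have hpU : p ∈ interior U := mem_interior_iff_mem_nhds.2 hU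
  obtain ⟨A, hA⟩ : ∃ A : Set M, A = {x | f x = y} ∩ (interior U)ᶜ := ⟨_, rfl⟩
  have hAc : IsCompact A := by
    rw [hA]
    exact ((isClosed_eq hf continuous_const).inter isOpen_interior.isClosed_compl).isCompact
  have hAm : ∀ x, x ∈ A ↔ f x = y ∧ x ≠ p := by
    intro x
    rw [hA]
    constructor
    · rintro ⟨h1, h2⟩
      exact ⟨h1, fun h3 => h2 (h3 ▸ hpU)⟩
    · rintro ⟨h1, h2⟩
      exact ⟨h1, fun h3 => h2 (hinj (interior_subset h3) (interior_subset hpU) (h1.trans hp.symm))⟩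
  have hp'A : p' ∈ A := (hAm p').2 ⟨hp', hne.symm⟩
  have hpA : p ∉ A := fun h => ((hAm p).1 h).2 rfl
  obtain ⟨W, W', hW, hW', hpW, hAW', hWW⟩ : ∃ W W' : Set M, IsOpen W ∧ IsOpen W' ∧ p ∈ W ∧ A ⊆ W' ∧
      Disjoint W W' := by
    obtain ⟨W, W', h1, h2, h3, h4, h5⟩ := SeparatedNhds.of_isCompact_isCompact
      (isCompact_singleton (x := p)) hAc (Set.disjoint_singleton_left.2 hpA)
    exact ⟨W, W', h1, h2, h3 rfl, h4, h5⟩
  have hWd : ∀ x, x ∈ W → x ∉ W' := fun x h1 h2 => Set.disjoint_left.1 hWW h1 h2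
  have hyW : ∀ x, f x = y → x ∈ W ∨ x ∈ W' := by
    intro x hx
    by_cases hxp : x = p
    · left; rw [hxp]; exact hpW
    · exact Or.inr (hAW' ((hAm x).2 ⟨hx, hxp⟩))
  -- the radius
  have hXcl : IsClosed {x | f x ∈ D} := hD.preimage hf
  obtain ⟨r, hr, hrW⟩ : ∃ r : ℝ, 0 < r ∧ ∀ x, f x ∈ D → dist (f x) y < r → x ∈ W ∨ x ∈ W' := by
    have h1 : IsClosed (f '' ({x | f x ∈ D} ∩ (W ∪ W')ᶜ)) :=
      ((hXcl.inter (hW.union hW').isClosed_compl).isCompact.image hf).isClosed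
    have h2 : y ∉ f '' ({x | f x ∈ D} ∩ (W ∪ W')ᶜ) := by
      rintro ⟨x, ⟨_, h3⟩, h4⟩
      exact h3 (hyW x h4)
    obtain ⟨r, hr, hr'⟩ := Metric.isOpen_iff.1 h1.isOpen_compl y h2
    refine ⟨r, hr, fun x hx hxr => ?_⟩
    by_contra h3
    exact hr' (Metric.mem_ball.2 hxr) ⟨x, ⟨hx, h3⟩, rfl⟩
  have hcl1 : IsClosed (f '' ({x | f x ∈ D} ∩ W'ᶜ)) :=
    ((hXcl.inter hW'.isClosed_compl).isCompact.image hf).isClosed
  have hcl2 : IsClosed (f '' ({x | f x ∈ D} ∩ Wᶜ)) :=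
    ((hXcl.inter hW.isClosed_compl).isCompact.image hf).isClosed
  have hball : IsOpen {x | dist (f x) y < r} := isOpen_lt (hf.dist continuous_const) continuous_const
  by_cases hE1 : ∃ x, f x ∈ D ∧ f x ≠ y ∧ dist (f x) y < r ∧ x ∈ W
  · by_cases hE2 : ∃ x, f x ∈ D ∧ f x ≠ y ∧ dist (f x) y < r ∧ x ∈ W'
    · obtain ⟨x₁, h1, h2, h3, h4⟩ := hE1
      obtain ⟨x₂, k1, k2, k3, k4⟩ := hE2
      obtain ⟨z, ⟨hz1, hz2, hz3⟩, ⟨u, ⟨hu1, hu2⟩, hu3⟩, ⟨v, ⟨hv1, hv2⟩, hv3⟩⟩ :=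
        isPreconnected_closed_iff.1 (hDr r hr) _ _ hcl1 hcl2 (by
          rintro z ⟨hz1, hz2, hz3⟩
          obtain ⟨x, hx⟩ := hsurj z hz1
          have hxD : f x ∈ D := by rw [hx]; exact hz1
          rcases hrW x hxD (by rw [hx]; exact hz3) with h | h
          · exact Or.inl ⟨x, ⟨hxD, hWd x h⟩, hx⟩
          · exact Or.inr ⟨x, ⟨hxD, fun h' => hWd x h' h⟩, hx⟩)
        ⟨f x₁, ⟨h1, h2, h3⟩, x₁, ⟨h1, hWd x₁ h4⟩, rfl⟩
        ⟨f x₂, ⟨k1, k2, k3⟩, x₂, ⟨k1, fun h' => hWd x₂ h' k4⟩, rfl⟩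
      have huv := huni z hz1 hz2 u v hu3 hv3
      rcases hrW u hu1 (by rw [hu3]; exact hz3) with h | h
      · exact hv2 (huv ▸ h)
      · exact hu2 h
    · obtain ⟨x, hx, ⟨hx1, hx2⟩, hx3⟩ := hX (W' ∩ {x | dist (f x) y < r}) Aᶜ (hW'.inter hball)
        hAc.isClosed.isOpen_compl (fun x _ => by
          by_cases hxA : x ∈ A
          · left
            refine ⟨hAW' hxA, ?_⟩
            show dist (f x) y < r
            rw [((hAm x).1 hxA).1, dist_self]
            exact hr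
          · exact Or.inr hxA)
        ⟨p', by show f p' ∈ D; rw [hp']; exact hyD, hAW' hp'A, by
          show dist (f p') y < r
          rw [hp', dist_self]
          exact hr⟩
        ⟨p, by show f p ∈ D; rw [hp]; exact hyD, hpA⟩
      by_cases hxy : f x = y
      · exact hx3 ((hAm x).2 ⟨hxy, fun h => hWd x (h ▸ hpW) hx1⟩)
      · exact hE2 ⟨x, hx, hxy, hx2, hx1⟩
  · obtain ⟨x, hx, ⟨hx1, hx2⟩, hx3⟩ := hX (W ∩ {x | dist (f x) y < r}) {p}ᶜ (hW.inter hball)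
      isOpen_compl_singleton (fun x _ => by
        by_cases hxp : x = p
        · left
          refine ⟨hxp ▸ hpW, ?_⟩
          show dist (f x) y < r
          rw [hxp, hp, dist_self]
          exact hr
        · exact Or.inr hxp)
      ⟨p, by show f p ∈ D; rw [hp]; exact hyD, hpW, by
        show dist (f p) y < r
        rw [hp, dist_self]
        exact hr⟩
      ⟨p', by show f p' ∈ D; rw [hp']; exact hyD, fun h => hne h.symm⟩
    by_cases hxy : f x = y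
    · exact hWd x hx1 (hAW' ((hAm x).2 ⟨hxy, hx3⟩))
    · exact hE1 ⟨x, hx, hxy, hx2, hx1⟩

theorem qInj (h1 : S_Con) (h2 : S_Ne) (h3 : S_Exp) : S_Inj := by
  intro M _ _ _ N f hf hloc hcon Φ hΦ hPC hsurj
  have _ := h2
  have main : ∀ p p' : M, f p = f p' → f p ∈ Φ → p = p' := by
    intro p₀ p₀' hpp hpΦ
    by_contra hne
    by_cases hpt : ∀ a ∈ Φ, ∀ b ∈ Φ, a = b
    · -- one point
      have hX := h1 M N f hf hcon Φ hΦ 0 0
      obtain ⟨U, hU, hinj⟩ := hloc p₀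
      refine inj_point hX (p := p₀) (p' := p₀') ⟨hpΦ, le_refl _⟩ ⟨hpp ▸ hpΦ, le_refl _⟩ hne hU ?_
      intro x hx hxU
      exact hinj hxU (mem_of_mem_nhds hU) (hpt _ hx.1 _ hpΦ)
    · push Not at hpt
      obtain ⟨a, ha, b, hb, hab⟩ := hpt
      obtain ⟨R, hR⟩ := inj_bdd hf hΦ
      obtain ⟨s, hs⟩ : ∃ s : ℝ, b + s • (b - a) ∉ Φ := by
        have hba : 0 < ‖b - a‖ := norm_pos_iff.2 (sub_ne_zero.2 (Ne.symm hab))
        refine ⟨(R + ‖b‖ + 1) / ‖b - a‖, fun h => ?_⟩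
        have h4 := hR _ h
        have hR0 : 0 ≤ R := (norm_nonneg b).trans (hR b hb)
        have h5 : ‖((R + ‖b‖ + 1) / ‖b - a‖) • (b - a)‖ = R + ‖b‖ + 1 := by
          rw [norm_smul, Real.norm_of_nonneg (by positivity), div_mul_cancel₀ _ hba.ne']
        have h6 : ‖((R + ‖b‖ + 1) / ‖b - a‖) • (b - a)‖ ≤
            ‖b + ((R + ‖b‖ + 1) / ‖b - a‖) • (b - a)‖ + ‖b‖ := by
          have h7 := norm_sub_le (b + ((R + ‖b‖ + 1) / ‖b - a‖) • (b - a)) b
          rwa [add_sub_cancel_left] at h7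
        linarith
      obtain ⟨o, ho⟩ : ∃ o, o = b + s • (b - a) := ⟨_, rfl⟩
      rw [← ho] at hs
      -- the farthest double point
      obtain ⟨⟨p, p'⟩, ⟨hpp1, hpp2, hpp3⟩, hmax⟩ :=
        (inj_closed hf hloc hΦ.cls).isCompact.exists_isMaxOn (f := fun q : M × M => dist (f q.1) o)
          ⟨(p₀, p₀'), hne, hpp, hpΦ⟩
          (((hf.comp continuous_fst).dist continuous_const).continuousOn)
      have hne' : p ≠ p' := hpp1
      have hpe : f p = f p' := hpp2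
      have hpΦ' : f p ∈ Φ := hpp3
      obtain ⟨y, hy⟩ : ∃ y, y = f p := ⟨_, rfl⟩
      have hyΦ : y ∈ Φ := hy ▸ hpΦ'
      obtain ⟨g, hg⟩ : ∃ g : En N →ₗ[ℝ] ℝ, ∀ z, g z = inner ℝ (y - o) z :=
        ⟨(innerSL ℝ (y - o)).toLinearMap, fun z => rfl⟩
      have huni : ∀ z ∈ {z | z ∈ Φ ∧ g y ≤ g z}, z ≠ y → ∀ x x', f x = z → f x' = z → x = x' := by
        rintro z ⟨hzΦ, hgz⟩ hzy x x' hx hx'
        by_contra hxx
        have h4 : dist z o ≤ dist y o := by
          have h5 := hmax (show (x, x') ∈ {q : M × M | q.1 ≠ q.2 ∧ f q.1 = f q.2 ∧ f q.1 ∈ Φ} from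
            ⟨hxx, hx.trans hx'.symm, by show f x ∈ Φ; rw [hx]; exact hzΦ⟩)
          have h6 : dist (f x) o ≤ dist (f p) o := h5
          rwa [hx, ← hy] at h6
        rw [hg, hg] at hgz
        have h5 : 0 ≤ inner ℝ (y - o) (z - y) := by
          rw [inner_sub_right]
          linarith
        have h6 : ‖z - o‖ ^ 2 = ‖z - y‖ ^ 2 + 2 * inner ℝ (y - o) (z - y) + ‖y - o‖ ^ 2 := by
          have h7 : z - o = (z - y) + (y - o) := by abel
          rw [h7, norm_add_sq_real, real_inner_comm]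
        have h8 : ‖z - o‖ ≤ ‖y - o‖ := by
          rwa [dist_eq_norm, dist_eq_norm] at h4
        have h9 : ‖z - o‖ ^ 2 ≤ ‖y - o‖ ^ 2 := pow_le_pow_left₀ (norm_nonneg _) h8 2
        have h10 : ‖z - y‖ ^ 2 ≤ 0 := by linarith
        have h11 : ‖z - y‖ = 0 := by
          have := sq_nonneg ‖z - y‖
          exact pow_eq_zero_iff (two_ne_zero) |>.1 (le_antisymm h10 this)
        exact hzy (sub_eq_zero.1 (norm_eq_zero.1 h11))
      have hz₀ : ∃ z₀ ∈ Φ, g y < g z₀ := by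
        by_contra hn
        push Not at hn
        have hF := h3 M N f Φ g (g y) hΦ hn ⟨y, hyΦ, rfl⟩
        by_cases hΨ : {z | z ∈ Φ ∧ g z = g y} = Φ
        · have ga : g a = g y := by
            have : a ∈ {z | z ∈ Φ ∧ g z = g y} := by rw [hΨ]; exact ha
            exact this.2
          have gb : g b = g y := by
            have : b ∈ {z | z ∈ Φ ∧ g z = g y} := by rw [hΨ]; exact hb
            exact this.2
          have go : g o = g y := by
            rw [ho, map_add, map_smul, map_sub, ga, gb, sub_self, smul_zero, add_zero]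
          have h4 : inner ℝ (y - o) (y - o) = (0 : ℝ) := by
            rw [inner_sub_right, ← hg, ← hg, go, sub_self]
          have h5 : y - o = 0 := inner_self_eq_zero.1 h4
          exact hs ((sub_eq_zero.1 h5) ▸ hyΦ)
        · obtain ⟨x, hx, hx'⟩ := hPC _ hF (fun z hz => hz.1) hΨ y ⟨hyΦ, rfl⟩
          exact hne' ((hx' p hy.symm).trans (hx' p' (hpe.symm.trans hy.symm)).symm)
      obtain ⟨z₀, hz₀Φ, hgz₀⟩ := hz₀
      have hcg : Continuous g := g.continuous_of_finiteDimensional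
      refine inj_top hf hloc (D := {z | z ∈ Φ ∧ g y ≤ g z}) (y := y) (p := p) (p' := p')
        (hΦ.cls.inter (isClosed_le continuous_const hcg)) (h1 M N f hf hcon Φ hΦ g (g y))
        (fun z hz => hsurj z hz.1) huni (fun r hr => inj_D hΦ.cvx g hyΦ hz₀Φ hgz₀ hr)
        ⟨hyΦ, le_refl _⟩ hy.symm (hpe.symm.trans hy.symm) hne'
  intro y hy
  obtain ⟨x, hx⟩ := hsurj y hy
  exact ⟨x, hx, fun x' hx' => main x' x (hx'.trans hx.symm) (hx' ▸ hy)⟩

end Q

end TightRP
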