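import Pool.Agent.Lib.MP_7cdc3e_gt.Q.Spec

/-!
# MP_7cdc3e_gt, part Q, Ne: faces contain image points
-/

set_option autoImplicit false

open HoloConj Pool.Agent.Lib.SingHom Module

namespace TightRP

namespace Q

theorem qNe (h1 : S_Ngh) : S_Ne := by
  intro M _ _ N f hf Φ hΦ g c hne
  obtain ⟨y, hy, hyc⟩ := hne
  by_contra hn
  push Not at hn
  obtain ⟨l, b, h2, h3⟩ := h1 M N f hf Φ hΦ g c ∅ isOpen_empty
    (fun x hx hxc => absurd (hn x hx) (not_lt.2 hxc))
  have hsub : Kf f ⊆ {z | l z ≤ b} := by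
    refine convexHull_min ?_ (convex_halfSpace_le l.isLinear b)
    rintro _ ⟨x, rfl⟩
    by_contra h
    exact h3 x (not_le.1 h)
  have h4 : l y ≤ b := hsub (hΦ.ext.subset hy)
  exact absurd (h2 y hy hyc) (not_lt.2 h4)

end Q

end TightRP
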