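import Pool.Agent.Lib.MP_7cdc3e_gt.Q.Spec

/-!
# MP_7cdc3e_gt, part Q, Ngh: half-space neighbourhoods of a face
-/

set_option autoImplicit false

open HoloConj Pool.Agent.Lib.SingHom Module

namespace TightRP

namespace Q

theorem qNgh (h1 : S_Cvh) : S_Ngh := by
  intro M _ _ N f hf Φ hΦ g c O hO hOx
  let A : Set (En N) := f '' Oᶜ
  have hA : IsCompact A := hO.isClosed_compl.isCompact.image hf
  have hAK : A ⊆ Kf f := (Set.image_subset_range f _).trans (subset_convexHull ℝ _)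
  have hKc : Convex ℝ (Kf f) := convex_convexHull ℝ _
  have hgc : Continuous g := LinearMap.continuous_of_finiteDimensional g
  have hC : ∀ z ∈ convexHull ℝ A, z ∈ Φ → z ∈ convexHull ℝ (A ∩ Φ) := by
    have hsub : convexHull ℝ A ⊆ {z | z ∈ Kf f ∧ (z ∈ Φ → z ∈ convexHull ℝ (A ∩ Φ))} := by
      refine convexHull_min (fun z hz => ⟨hAK hz, fun h => subset_convexHull ℝ _ ⟨hz, h⟩⟩) ?_
      rw [convex_iff_openSegment_subset]
      rintro x ⟨hxK, hx⟩ y ⟨hyK, hy⟩ z hz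
      refine ⟨hKc.openSegment_subset hxK hyK hz, fun hzΦ => ?_⟩
      have hxΦ : x ∈ Φ := hΦ.ext.left_mem_of_mem_openSegment hxK hyK hzΦ hz
      have hyΦ : y ∈ Φ := hΦ.ext.right_mem_of_mem_openSegment hxK hyK hzΦ hz
      exact (convex_convexHull ℝ _).openSegment_subset (hx hxΦ) (hy hyΦ) hz
    exact fun z hz => (hsub hz).2
  have hlt : ∀ z ∈ convexHull ℝ (A ∩ Φ), g z < c := by
    have hsub : convexHull ℝ (A ∩ Φ) ⊆ {z | g z < c} := by
      refine convexHull_min ?_ (convex_halfSpace_lt g.isLinear c)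
      rintro _ ⟨⟨x, hx, rfl⟩, hxΦ⟩
      by_contra hn
      exact hx (hOx x hxΦ (not_lt.1 hn))
    exact fun z hz => hsub hz
  have hd : Disjoint (convexHull ℝ A) (Φ ∩ {y | c ≤ g y}) := by
    rw [Set.disjoint_left]
    rintro z hz ⟨hzΦ, hzc⟩
    exact absurd (hlt z (hC z hz hzΦ)) (not_lt.2 hzc)
  obtain ⟨l, u, v, h2, h3, h4⟩ := geometric_hahn_banach_compact_closed
    (convex_convexHull ℝ A) (h1 N A hA) (hΦ.cvx.inter (convex_halfSpace_ge g.isLinear c))
    (hΦ.cls.inter (isClosed_le continuous_const hgc)) hd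
  refine ⟨(l : En N →ₗ[ℝ] ℝ), v, fun y hy hyc => h4 y ⟨hy, hyc⟩, fun x hx => ?_⟩
  by_contra hn
  have h5 := h2 (f x) (subset_convexHull ℝ _ ⟨x, hn, rfl⟩)
  exact absurd (hx.trans (h5.trans h3)) (lt_irrefl _)

end Q

end TightRP
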