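import Pool.Agent.Lib.MP_7cdc3e_gt.Q.Spec

/-!
# MP_7cdc3e_gt, Q/Odd: the projection of a path from `x` to `-x` is not a boundary mod 2
-/

set_option autoImplicit false

open HoloConj Pool.Agent.Lib.SingHom Module

namespace TightRP

namespace Q

private theorem odd_ne_neg (x : S3) : x ≠ -x := by
  intro h
  have h1 : (x : EuclideanSpace ℝ (Fin 4)) = -(x : EuclideanSpace ℝ (Fin 4)) :=
    congrArg Subtype.val h
  have h2 : (x : EuclideanSpace ℝ (Fin 4)) = 0 := by
    have h4 : (2 : ℝ) • (x : EuclideanSpace ℝ (Fin 4)) = 0 := by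
      rw [two_smul]
      exact add_eq_zero_iff_eq_neg.2 h1
    exact (smul_eq_zero.1 h4).resolve_left two_ne_zero
  have h3 := norm_eq_of_mem_sphere x
  rw [h2, norm_zero] at h3
  exact zero_ne_one h3

private theorem odd_mk_neg (x : S3) : mk (-x) = mk x := by
  unfold mk
  apply Quotient.sound
  exact Or.inr rfl

private theorem odd_out (x : S3) : Quotient.out (mk x) = x ∨ Quotient.out (mk x) = -x := by
  have h1 : antipodal.r (Quotient.out (mk x)) x := Quotient.mk_out (s := antipodal) x
  rcases h1 with h | h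
  · exact Or.inl (Subtype.ext h)
  · exact Or.inr (Subtype.ext h)

/-- in characteristic two: a function with `h (-x) = 1 + h x` -/
private theorem odd_h (F : Type) [Field F] (h2 : (2 : F) = 0) :
    ∃ h : S3 → F, ∀ x, h (-x) = 1 + h x := by
  classical
  refine ⟨fun x => if Quotient.out (mk x) = x then 0 else 1, fun x => ?_⟩
  change (if Quotient.out (mk (-x)) = -x then (0 : F) else 1) =
    1 + if Quotient.out (mk x) = x then (0 : F) else 1
  rw [odd_mk_neg]
  rcases odd_out x with h | h
  · rw [h, if_neg (odd_ne_neg x), if_pos rfl, add_zero]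
  · rw [h, if_pos rfl, if_neg (fun h' => odd_ne_neg x h'.symm)]
    rw [← h2]
    norm_num

private theorem odd_smap_vertex {m n : ℕ} (f : Fin m → Fin n) (i : Fin m) :
    (smap f) (stdSimplex.vertex i) = (stdSimplex.vertex (f i) : stdSimplex ℝ (Fin n)) := by
  rw [smap_eq_aff]
  exact aff_vertex _ i

theorem qOdd (hC : S_Cov) : S_Odd := by
  intro F _ h2 τ hτ hb
  obtain ⟨-, hlift, huniq⟩ := hC
  obtain ⟨h, hh⟩ := odd_h F h2
  have hadd : ∀ a : F, a + a = 0 := fun a => by
    rw [← two_mul, h2, zero_mul]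
  choose L hL using hlift 1
  let θ₀ : C(Sx 1, RP3) → F := fun σ =>
    h (L σ (stdSimplex.vertex 1)) + h (L σ (stdSimplex.vertex 0))
  -- the value does not depend on the lift
  have hθ₀ : ∀ (σ : C(Sx 1, RP3)) (ρ : C(Sx 1, S3)), (∀ t, mk (ρ t) = σ t) →
      θ₀ σ = h (ρ (stdSimplex.vertex 1)) + h (ρ (stdSimplex.vertex 0)) := by
    intro σ ρ hρ
    have : PreconnectedSpace (Sx 1) :=
      isPreconnected_iff_preconnectedSpace.1 (convex_stdSimplex ℝ (Fin 2)).isPreconnected
    rcases huniq (Sx 1) (L σ) ρ (fun t => (hL σ t).trans (hρ t).symm) with h1 | h1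
    · change h (L σ (stdSimplex.vertex 1)) + h (L σ (stdSimplex.vertex 0)) = _
      rw [h1]
    · change h (L σ (stdSimplex.vertex 1)) + h (L σ (stdSimplex.vertex 0)) = _
      rw [h1, h1, hh, hh]
      have h3 := hadd 1
      linear_combination (-1 : F) * h3
  let θ : SC F RP3 1 →ₗ[F] F := Finsupp.linearCombination F θ₀
  have hθ1 : ∀ σ : C(Sx 1, RP3), θ (Finsupp.single σ 1) = θ₀ σ := fun σ => by
    change Finsupp.linearCombination F θ₀ (Finsupp.single σ 1) = _
    rw [Finsupp.linearCombination_single, one_smul]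
  -- the functional vanishes on boundaries
  have hθb : ∀ c : SC F RP3 2, θ (sbd F 1 c) = 0 := by
    intro c
    have h1 : θ ∘ₗ (sbd F 1) = (0 : SC F RP3 2 →ₗ[F] F) := by
      apply slin_ext
      intro σ
      obtain ⟨ρ, hρ⟩ := hlift 2 σ
      rw [LinearMap.comp_apply, sbd_single, sbdv, map_sum]
      have h3 : ∀ i : Fin 3, θ (Finsupp.single (face i σ) 1) =
          h (ρ (stdSimplex.vertex (i.succAbove 1))) + h (ρ (stdSimplex.vertex (i.succAbove 0))) := by
        intro i
        rw [hθ1, hθ₀ (face i σ) (ρ.comp (smap i.succAbove)) (fun t => hρ _)]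
        change h (ρ (smap i.succAbove (stdSimplex.vertex 1))) +
          h (ρ (smap i.succAbove (stdSimplex.vertex 0))) = _
        rw [odd_smap_vertex, odd_smap_vertex]
      simp only [map_smul, h3]
      rw [Fin.sum_univ_three]
      have e1 : (0 : Fin 3).succAbove (1 : Fin 2) = 2 := rfl
      have e2 : (0 : Fin 3).succAbove (0 : Fin 2) = 1 := rfl
      have e3 : (1 : Fin 3).succAbove (1 : Fin 2) = 2 := rfl
      have e4 : (1 : Fin 3).succAbove (0 : Fin 2) = 0 := rfl
      have e5 : (2 : Fin 3).succAbove (1 : Fin 2) = 1 := rfl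
      have e6 : (2 : Fin 3).succAbove (0 : Fin 2) = 0 := rfl
      rw [e1, e2, e3, e4, e5, e6]
      have h4 := hadd (h (ρ (stdSimplex.vertex 1)))
      simp only [LinearMap.zero_apply, smul_eq_mul]
      norm_num
      linear_combination h4
    exact LinearMap.congr_fun h1 c
  obtain ⟨y, hy⟩ := hb
  have h5 := hθb y
  rw [hy, hθ1, hθ₀ (mkC.comp τ) τ (fun t => rfl), hτ, hh] at h5
  have h6 := hadd (h (τ (stdSimplex.vertex 0)))
  have h7 : (1 : F) = 0 := by
    linear_combination h5 - h6
  exact one_ne_zero h7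

end Q

end TightRP
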