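import Pool.Agent.Lib.MP_7cdc3e_gt.Q.Spec

/-!
# MP_7cdc3e_gt, part Q: Q2, characteristic not two (helper50)
-/

set_option autoImplicit false

open HoloConj Pool.Agent.Lib.SingHom Module

namespace TightRP

namespace Q

theorem qQ2 (h1 : S_Hom4) (h2 : S_Sys2) (h3 : S_Tra) (h4 : RPTopStmt) : S_Q2 := by
  intro F _ hF N f hf hloc hsub ht
  obtain ⟨t2, le3, pc⟩ := h4
  have := t2
  have := pc
  have : CompactSpace RP3 := inferInstanceAs (CompactSpace (Quotient antipodal))
  obtain ⟨c0, hinj⟩ := h2 F RP3 N f hf ht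
  obtain ⟨s1, s2⟩ := h3 F hF
  exact h1 F RP3 N f le3 hf hloc hsub c0 (fun l b => hinj l b 1 (by norm_num))
    (fun l b => hinj l b 2 le_rfl) s1 s2

end Q

end TightRP
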