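import Pool.Agent.Lib.MP_7cdc3e_gt.Q.Spec

/-!
# MP_7cdc3e_gt, part Q: the radial map to the relative boundary (`S_Rad`)
-/

set_option autoImplicit false

open HoloConj Pool.Agent.Lib.SingHom Module

namespace TightRP

namespace Q

open Topology in
private theorem rad_closure {E : Type} [NormedAddCommGroup E] [NormedSpace ℝ E] {P : Set E}
    (hP : Convex ℝ P) (hint : (interior P).Nonempty) {w₀ : E} (hw₀ : w₀ ∉ interior P) :
    ∃ g : E →L[ℝ] ℝ, (∀ a ∈ P, g a ≤ g w₀) ∧ ∃ a ∈ P, g a < g w₀ := by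
  obtain ⟨g, hg⟩ := geometric_hahn_banach_open_point hP.interior isOpen_interior hw₀
  refine ⟨g, fun a ha => ?_, ?_⟩
  · have h1 : a ∈ closure (interior P) := by
      rw [hP.closure_interior_eq_closure_of_nonempty_interior hint]
      exact subset_closure ha
    have h2 : IsClosed {x : E | g x ≤ g w₀} := isClosed_le g.continuous continuous_const
    exact closure_minimal (fun x hx => (hg x hx).le) h2 h1
  · obtain ⟨a, ha⟩ := hint
    exact ⟨a, interior_subset ha, hg a ha⟩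

variable {M : Type} [TopologicalSpace M] {N : ℕ}

/-- `Φ` in coordinates of its span -/
private def radP (Φ : Set (En N)) (y : En N) : Set (vectorSpan ℝ Φ) :=
  {w | y + (w : En N) ∈ Φ}

private theorem radP_convex {Φ : Set (En N)} (hΦ : Convex ℝ Φ) (y : En N) :
    Convex ℝ (radP Φ y) := by
  intro a ha b hb s t hs ht hst
  have h1 := hΦ ha hb hs ht hst
  change y + ((s • a + t • b : vectorSpan ℝ Φ) : En N) ∈ Φ
  have h2 : y + ((s • a + t • b : vectorSpan ℝ Φ) : En N) =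
      s • (y + (a : En N)) + t • (y + (b : En N)) := by
    rw [Submodule.coe_add, Submodule.coe_smul, Submodule.coe_smul, smul_add, smul_add]
    have h3 : y = s • y + t • y := by rw [← add_smul, hst, one_smul]
    nth_rewrite 1 [h3]
    abel
  rw [h2]
  exact h1

private theorem radP_closed {Φ : Set (En N)} (hΦ : IsClosed Φ) (y : En N) :
    IsClosed (radP Φ y) := by
  apply hΦ.preimage
  fun_prop

private theorem radP_bdd {Φ : Set (En N)} (hΦ : Bornology.IsBounded Φ) (y : En N) :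
    Bornology.IsBounded (radP Φ y) := by
  obtain ⟨C, hC⟩ := hΦ.exists_norm_le
  rw [isBounded_iff_forall_norm_le]
  refine ⟨C + ‖y‖, fun w hw => ?_⟩
  have h1 : (w : En N) = (y + (w : En N)) - y := by abel
  calc ‖w‖ = ‖(w : En N)‖ := rfl
    _ = ‖(y + (w : En N)) - y‖ := by rw [← h1]
    _ ≤ ‖y + (w : En N)‖ + ‖y‖ := norm_sub_le _ _
    _ ≤ C + ‖y‖ := add_le_add (hC _ hw) le_rfl

private theorem radP_span {Φ : Set (En N)} {y : En N} (hy : y ∈ Φ) :
    Submodule.span ℝ (radP Φ y) = ⊤ := by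
  have h1 : (Submodule.span ℝ (radP Φ y)).map (vectorSpan ℝ Φ).subtype = vectorSpan ℝ Φ := by
    rw [Submodule.map_span]
    refine Eq.trans ?_ (vectorSpan_eq_span_vsub_set_right ℝ hy).symm
    congr 1
    ext v
    constructor
    · rintro ⟨w, hw, rfl⟩
      exact ⟨y + (w : En N), hw, by simp⟩
    · rintro ⟨z, hz, rfl⟩
      refine ⟨⟨z -ᵥ y, vsub_mem_vectorSpan ℝ hz hy⟩, ?_, rfl⟩
      change y + (z -ᵥ y) ∈ Φ
      rw [vsub_eq_sub, add_sub_cancel]
      exact hz
  rw [Submodule.eq_top_iff']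
  intro w
  have h2 : (w : En N) ∈ (Submodule.span ℝ (radP Φ y)).map (vectorSpan ℝ Φ).subtype := by
    rw [h1]
    exact w.2
  obtain ⟨w', hw', h3⟩ := h2
  have h4 : w' = w := Subtype.ext h3
  rw [← h4]
  exact hw'

private theorem radP_int {Φ : Set (En N)} (hΦ : Convex ℝ Φ) {y : En N} (hy : y ∈ Φ) :
    (interior (radP Φ y)).Nonempty := by
  have h0 : (0 : vectorSpan ℝ Φ) ∈ radP Φ y := by
    change y + ((0 : vectorSpan ℝ Φ) : En N) ∈ Φ
    rw [Submodule.coe_zero, add_zero]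
    exact hy
  rw [(radP_convex hΦ y).interior_nonempty_iff_affineSpan_eq_top,
    AffineSubspace.affineSpan_eq_top_iff_vectorSpan_eq_top_of_nonempty ℝ _ _ ⟨0, h0⟩,
    vectorSpan_eq_span_vsub_set_right ℝ h0]
  have h1 : ((fun w : vectorSpan ℝ Φ => w -ᵥ (0 : vectorSpan ℝ Φ)) '' radP Φ y) = radP Φ y := by
    simp
  rw [h1]
  exact radP_span hy

/-- Boundary points are in proper faces. -/
private theorem rad_key (h1 : S_Exp) {f : M → En N} {Φ : Set (En N)} {y : En N} (hF : Fac f Φ)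
    (hy : y ∈ Φ) {w₀ : vectorSpan ℝ Φ} (hw : w₀ ∈ radP Φ y) (hw₀ : w₀ ∉ interior (radP Φ y)) :
    ∃ Ψ, Fac f Ψ ∧ Ψ ⊆ Φ ∧ Ψ ≠ Φ ∧ y + (w₀ : En N) ∈ Ψ := by
  obtain ⟨g', hg, a, ha, hga⟩ := rad_closure (radP_convex hF.cvx y) (radP_int hF.cvx hy) hw₀
  obtain ⟨g, hgg⟩ := LinearMap.exists_extend (p := vectorSpan ℝ Φ) (g' : vectorSpan ℝ Φ →ₗ[ℝ] ℝ)
  have hg1 : ∀ w : vectorSpan ℝ Φ, g (w : En N) = g' w := fun w => LinearMap.congr_fun hgg w
  refine ⟨{z | z ∈ Φ ∧ g z = g (y + (w₀ : En N))}, ?_, fun z hz => hz.1, ?_, hw, rfl⟩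
  · refine h1 M N f Φ g _ hF (fun z hz => ?_) ⟨_, hw, rfl⟩
    have h2 : (⟨z -ᵥ y, vsub_mem_vectorSpan ℝ hz hy⟩ : vectorSpan ℝ Φ) ∈ radP Φ y := by
      change y + (z -ᵥ y) ∈ Φ
      rw [vsub_eq_sub, add_sub_cancel]
      exact hz
    have h3 := hg _ h2
    rw [← hg1, ← hg1] at h3
    have h4 : z = y + (z -ᵥ y) := by rw [vsub_eq_sub, add_sub_cancel]
    rw [h4, map_add, map_add]
    exact add_le_add le_rfl h3
  · intro h
    have h2 : y + (a : En N) ∈ {z | z ∈ Φ ∧ g z = g (y + (w₀ : En N))} := by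
      rw [h]
      exact ha
    have h3 := h2.2
    rw [map_add, map_add, hg1, hg1] at h3
    linarith

theorem qRad (h1 : S_Exp) : S_Rad := by
  intro M _ _ N f hf Φ y hF hR
  have hy := hR.1
  have hb : Bornology.IsBounded Φ := by
    have h2 : Bornology.IsBounded (Kf f) :=
      isBounded_convexHull.2 (isCompact_range hf).isBounded
    exact h2.subset hF.ext.subset
  have hc := radP_convex hF.cvx y
  have h0 : (0 : vectorSpan ℝ Φ) ∈ radP Φ y := by
    change y + ((0 : vectorSpan ℝ Φ) : En N) ∈ Φ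
    rw [Submodule.coe_zero, add_zero]
    exact hy
  have hn : radP Φ y ∈ nhds (0 : vectorSpan ℝ Φ) := by
    rw [← mem_interior_iff_mem_nhds]
    by_contra hcon
    obtain ⟨Ψ, a1, a2, a3, a4⟩ := rad_key h1 hF hy h0 hcon
    rw [Submodule.coe_zero, add_zero] at a4
    exact hR.2 Ψ a1 a2 a3 a4
  have hpos : ∀ w : Nz (vectorSpan ℝ Φ), 0 < gauge (radP Φ y) (w : vectorSpan ℝ Φ) := fun w =>
    (gauge_pos (absorbent_nhds_zero hn) (NormedSpace.isVonNBounded_of_isBounded ℝ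
      (radP_bdd hb y))).2 w.2
  refine ⟨fun w => y + (gauge (radP Φ y) (w : vectorSpan ℝ Φ))⁻¹ • ((w : vectorSpan ℝ Φ) : En N),
    ?_, ?_, ?_⟩
  · have h2 : Continuous fun w : Nz (vectorSpan ℝ Φ) =>
        gauge (radP Φ y) (w : vectorSpan ℝ Φ) :=
      (continuous_gauge hc hn).comp continuous_subtype_val
    have h3 := h2.inv₀ (fun w => (hpos w).ne')
    exact continuous_const.add (h3.smul (continuous_subtype_val.comp continuous_subtype_val))
  · intro w
    exact ⟨_, inv_pos.2 (hpos w), rfl⟩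
  · intro w
    have hg : gauge (radP Φ y) ((gauge (radP Φ y) (w : vectorSpan ℝ Φ))⁻¹ •
        (w : vectorSpan ℝ Φ)) = 1 := by
      rw [gauge_smul_of_nonneg (inv_nonneg.2 (hpos w).le), smul_eq_mul,
        inv_mul_cancel₀ (hpos w).ne']
    have hmem : (gauge (radP Φ y) (w : vectorSpan ℝ Φ))⁻¹ • (w : vectorSpan ℝ Φ) ∈ radP Φ y := by
      have h2 := (gauge_le_one_iff_mem_closure hc hn).1 hg.le
      rwa [(radP_closed hF.cls y).closure_eq] at h2
    have hnot : (gauge (radP Φ y) (w : vectorSpan ℝ Φ))⁻¹ • (w : vectorSpan ℝ Φ) ∉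
        interior (radP Φ y) := fun h => by
      have h2 := (gauge_lt_one_iff_mem_interior hc hn).2 h
      rw [hg] at h2
      exact lt_irrefl _ h2
    exact rad_key h1 hF hy hmem hnot

end Q

end TightRP
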