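import Pool.Agent.Lib.MP_7cdc3e_gt.Q.Spec

/-!
# MP_7cdc3e_gt, Q/Rl: relative interior points
-/

set_option autoImplicit false

open HoloConj Pool.Agent.Lib.SingHom Module

namespace TightRP

namespace Q

/-- beyond a relative interior point -/
private theorem beyond {N : ℕ} {Φ : Set (En N)} {y z : En N} (hy : y ∈ intrinsicInterior ℝ Φ)
    (hz : z ∈ Φ) : ∃ ε : ℝ, 0 < ε ∧ AffineMap.lineMap y z (-ε) ∈ Φ := by
  obtain ⟨y', hy', rfl⟩ := hy
  have hzA : z ∈ affineSpan ℝ Φ := subset_affineSpan ℝ Φ hz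
  let γ : ℝ → affineSpan ℝ Φ := fun t => ⟨AffineMap.lineMap (y' : En N) z t,
    AffineMap.lineMap_mem t y'.2 hzA⟩
  have hγ : Continuous γ := by
    refine Continuous.subtype_mk ?_ _
    exact AffineMap.lineMap_continuous
  have hγ0 : γ 0 = y' := by
    apply Subtype.ext
    exact AffineMap.lineMap_apply_zero _ _
  have h1 : ∀ᶠ t in nhds (0 : ℝ), γ t ∈ ((↑) ⁻¹' Φ : Set (affineSpan ℝ Φ)) := by
    have h2 : ((↑) ⁻¹' Φ : Set (affineSpan ℝ Φ)) ∈ nhds (γ 0) := by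
      rw [hγ0]
      exact mem_interior_iff_mem_nhds.1 hy'
    exact hγ.continuousAt.eventually_mem h2
  rw [Metric.eventually_nhds_iff] at h1
  obtain ⟨δ, hδ, h1⟩ := h1
  refine ⟨δ / 2, by positivity, ?_⟩
  have h3 := h1 (y := -(δ / 2)) (by
    rw [Real.dist_eq, sub_zero, abs_neg, abs_of_pos (by positivity)]
    linarith)
  exact h3

/-- **Rl.** -/
theorem qRl : S_Rl := by
  intro M _ N f Φ hΦ
  obtain ⟨y, hy⟩ := hΦ.ne.intrinsicInterior hΦ.cvx
  refine ⟨y, intrinsicInterior_subset hy, fun Ψ hΨ hsub hne hyΨ => hne ?_⟩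
  refine Set.Subset.antisymm hsub fun z hz => ?_
  obtain ⟨ε, hε, hw⟩ := beyond hy hz
  refine hΨ.ext.left_mem_of_mem_openSegment (hΦ.ext.subset hz) (hΦ.ext.subset hw) hyΨ ?_
  refine ⟨ε / (1 + ε), 1 / (1 + ε), by positivity, by positivity, by field_simp; ring, ?_⟩
  rw [AffineMap.lineMap_apply, vsub_eq_sub, vadd_eq_add]
  have h1 : (1 + ε) ≠ 0 := by positivity
  have h2 : (ε / (1 + ε)) • z + (1 / (1 + ε)) • (-ε • (z - y) + y)
      = ((1 / (1 + ε)) * (1 + ε)) • y := by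
    module
  rw [h2, one_div_mul_cancel h1, one_smul]

end Q

end TightRP
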