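import Pool.Agent.Lib.MP_7cdc3e_gt.Q.Spec

/-!
# MP_7cdc3e_gt, part Q: continuity of the inverse
-/

set_option autoImplicit false

namespace TightRP

namespace Q

theorem qSec : S_Sec := by
  intro M X Y _ _ _ _ _ f ρ hf hρ h
  choose s hs hu using h
  refine ⟨⟨s, ?_⟩, fun y => hs y⟩
  rw [continuous_iff_isClosed]
  intro C hC
  have h1 : s ⁻¹' C = ρ ⁻¹' (f '' C) := by
    ext y
    simp only [Set.mem_preimage, Set.mem_image]
    constructor
    · intro hy
      exact ⟨s y, hy, hs y⟩
    · rintro ⟨x, hx, hxy⟩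
      rw [← hu y x hxy]
      exact hx
  rw [h1]
  exact ((hC.isCompact.image hf).isClosed).preimage hρ

end Q

end TightRP
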