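import Pool.Agent.Lib.MP_7cdc3e_gt.Q.Spec

/-!
# MP_7cdc3e_gt, part Q: homology of the three-sphere
-/

set_option autoImplicit false

open HoloConj Pool.Agent.Lib.SingHom Module

namespace TightRP

namespace Q

private theorem sph_path : PathConnectedSpace (Pn 3) := by
  have h : IsPathConnected ({0}ᶜ : Set (EuclideanSpace ℝ (Fin 3))) := by
    refine isPathConnected_compl_singleton_of_one_lt_rank ?_ _
    rw [← Module.finrank_eq_rank, finrank_euclideanSpace_fin]
    norm_num
  exact isPathConnected_iff_pathConnectedSpace.1 h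

private noncomputable def sphI : C(S3, Pn 4) :=
  ⟨fun x => ⟨x.1, by
    intro h
    have h1 := x.2
    rw [mem_sphere_zero_iff_norm, h, norm_zero] at h1
    exact zero_ne_one h1⟩, by fun_prop⟩

private noncomputable def sphR : C(Pn 4, S3) :=
  ⟨fun x => ⟨‖x.1‖⁻¹ • x.1, by
    rw [mem_sphere_zero_iff_norm, norm_smul, norm_inv, norm_norm,
      inv_mul_cancel₀ (norm_ne_zero_iff.2 x.2)]⟩, by
    refine Continuous.subtype_mk ?_ _
    exact (continuous_subtype_val.norm.inv₀ fun x => norm_ne_zero_iff.2 x.2).smul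
      continuous_subtype_val⟩

private theorem sph_ret (F : Type) [Field F] (n : ℕ) (h : Subsingleton (Hq F n (Pn 4))) :
    Subsingleton (Hq F n S3) := by
  have h1 : sphR.comp sphI = ContinuousMap.id S3 := by
    ext x : 2
    show ‖x.1‖⁻¹ • x.1 = x.1
    have h1 := x.2
    rw [mem_sphere_zero_iff_norm] at h1
    rw [h1, inv_one, one_smul]
  have h2 : Function.Injective (Hmap F n sphI) := by
    apply Function.LeftInverse.injective (g := Hmap F n sphR)
    intro z
    rw [← Hmap_comp_apply, h1, Hmap_id]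
    rfl
  exact h2.subsingleton

theorem qSph (h1 : SuspStmt) (h2 : P3Stmt) : S_Sph := by
  intro F _
  refine ⟨sph_ret F 1 ((h1 F 3).2 sph_path), sph_ret F 2 ?_⟩
  obtain ⟨e⟩ := (h1 F 3).1 0
  have h3 : Subsingleton (Hq F 1 (Pn 3)) := (h2 F).1
  exact e.injective.subsingleton

end Q

end TightRP
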