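import Pool.Agent.Lib.MP_7cdc3e_gt.Q.Spec

/-!
# MP_7cdc3e_gt, part Q: faces of dimension one are covered
-/

set_option autoImplicit false

open Module

namespace TightRP

namespace Q

theorem qSur1 (h1 : S_Ngh) (h2 : S_Rad) (h3 : S_Sec) : S_Sur1 := by
  intro M _ _ _ N f hf hcon Φ hΦ hP hdm y hy
  by_contra hno
  have hrel : Rel f Φ y := by
    refine ⟨hy, fun Ψ hΨ hs hne hyΨ => hno ?_⟩
    obtain ⟨x, hx, -⟩ := hP Ψ hΨ hs hne y hyΨ
    exact ⟨x, hx⟩
  obtain ⟨ρ, hρc, hρt, hρf⟩ := h2 M N f hf Φ y hΦ hrel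
  obtain ⟨s, hs⟩ := h3 M (En N) (Nz (vectorSpan ℝ Φ)) f ρ hf hρc (by
    intro w
    obtain ⟨Ψ, hΨ, hsub, hne, hmem⟩ := hρf w
    exact hP Ψ hΨ hsub hne _ hmem)
  have hρΦ : ∀ w, ρ w ∈ Φ := by
    intro w
    obtain ⟨Ψ, hΨ, hsub, hne, hmem⟩ := hρf w
    exact hsub hmem
  have hdm' : finrank ℝ (vectorSpan ℝ Φ) = 1 := hdm
  obtain ⟨e, he0, he⟩ := finrank_eq_one_iff'.1 hdm'
  have he0' : ((e : vectorSpan ℝ Φ) : En N) ≠ 0 := fun h => he0 (Subtype.ext h)
  let φ : En N → ℝ := fun z => inner ℝ (e : En N) (z - y)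
  have hφ : Continuous φ := by
    change Continuous fun z => inner ℝ (e : En N) (z - y)
    fun_prop
  have hφf : Continuous fun x => φ (f x) := hφ.comp hf
  have hnorm : 0 < inner ℝ (e : En N) (e : En N) := real_inner_self_pos.2 he0'
  have hin : ∀ x, f x ∈ Φ → φ (f x) ≠ 0 := by
    intro x hx h0
    have hv : f x - y ∈ vectorSpan ℝ Φ := by
      have := vsub_mem_vectorSpan ℝ hx hy
      simpa using this
    obtain ⟨c, hc⟩ := he ⟨f x - y, hv⟩
    have hc' : c • (e : En N) = f x - y := congrArg Subtype.val hc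
    change inner ℝ (e : En N) (f x - y) = 0 at h0
    rw [← hc', inner_smul_right] at h0
    rcases mul_eq_zero.1 h0 with h | h
    · apply hno
      refine ⟨x, ?_⟩
      rw [h, zero_smul] at hc'
      exact (sub_eq_zero.1 hc'.symm)
    · exact hnorm.ne' h
  have hO : IsOpen {x | φ (f x) ≠ 0} := isOpen_ne.preimage hφf
  obtain ⟨l, b, hl1, hl2⟩ := h1 M N f hf Φ hΦ 0 0 {x | φ (f x) ≠ 0} hO (fun x hx _ => hin x hx)
  have hne' : -e ≠ 0 := neg_ne_zero.2 he0
  have key := hcon l b {x | 0 < φ (f x)} {x | φ (f x) < 0} (isOpen_lt continuous_const hφf)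
    (isOpen_lt hφf continuous_const) (by
      intro x hx
      have h4 : φ (f x) ≠ 0 := hl2 x hx
      rcases lt_or_gt_of_ne h4 with h | h
      · exact Or.inr h
      · exact Or.inl h) (by
      refine ⟨s ⟨e, he0⟩, ?_, ?_⟩
      · change b < l (f (s ⟨e, he0⟩))
        rw [hs]
        exact hl1 _ (hρΦ _) le_rfl
      · change 0 < φ (f (s ⟨e, he0⟩))
        rw [hs]
        obtain ⟨t, ht, hρ⟩ := hρt ⟨e, he0⟩
        rw [hρ]
        change 0 < inner ℝ (e : En N) (y + t • (e : En N) - y)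
        rw [add_sub_cancel_left, inner_smul_right]
        positivity) (by
      refine ⟨s ⟨-e, hne'⟩, ?_, ?_⟩
      · change b < l (f (s ⟨-e, hne'⟩))
        rw [hs]
        exact hl1 _ (hρΦ _) le_rfl
      · change φ (f (s ⟨-e, hne'⟩)) < 0
        rw [hs]
        obtain ⟨t, ht, hρ⟩ := hρt ⟨-e, hne'⟩
        rw [hρ]
        change inner ℝ (e : En N) (y + t • ((-e : vectorSpan ℝ Φ) : En N) - y) < 0
        rw [add_sub_cancel_left, inner_smul_right, Submodule.coe_neg, inner_neg_right]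
        have := mul_pos ht hnorm
        linarith)
  obtain ⟨x, -, hx1, hx2⟩ := key
  have hx1' : 0 < φ (f x) := hx1
  have hx2' : φ (f x) < 0 := hx2
  linarith

end Q

end TightRP
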