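import Pool.Agent.Lib.MP_7cdc3e_gt.Q.Spec

/-!
# MP_7cdc3e_gt, Q/Tra: the transfer (characteristic not two)
-/

set_option autoImplicit false

open HoloConj Pool.Agent.Lib.SingHom Module

namespace TightRP

namespace Q

/-- the antipodal map -/
private noncomputable def traNeg : C(S3, S3) := ⟨fun x => -x, continuous_neg⟩

private theorem traNeg_traNeg {n : ℕ} (τ : C(Sx n, S3)) : traNeg.comp (traNeg.comp τ) = τ := by
  ext t : 1
  exact neg_neg (τ t)

private theorem mk_traNeg (x : S3) : mk (-x) = mk x :=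
  Quotient.sound (s := antipodal) (Or.inr rfl)

section

variable (F : Type) [Field F]

/-- the transfer of a lift -/
private noncomputable def trv {n : ℕ} (τ : C(Sx n, S3)) : SC F S3 n :=
  Finsupp.single τ 1 + Finsupp.single (traNeg.comp τ) 1

private theorem trv_eq (h1 : S_Cov) {n : ℕ} {τ τ' : C(Sx n, S3)}
    (h : ∀ t, mk (τ t) = mk (τ' t)) : trv F τ = trv F τ' := by
  rcases h1.2.2 (Sx n) τ τ' h with h' | h'
  · rw [h']
  · have h2 : τ' = traNeg.comp τ := by
      ext t : 1
      exact h' t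
    rw [trv, trv, h2, traNeg_traNeg, add_comm]

private theorem sbd_trv {n : ℕ} (τ : C(Sx (n + 1), S3)) : sbd F n (trv F τ) =
    ∑ i : Fin (n + 2), (-1 : F) ^ (i : ℕ) • trv F (face i τ) := by
  rw [trv, map_add, sbd_single, sbd_single, sbdv, sbdv, ← Finset.sum_add_distrib]
  refine Finset.sum_congr rfl fun i _ => ?_
  rw [trv, smul_add]
  rfl

private theorem smp_trv {n : ℕ} (τ : C(Sx n, S3)) :
    smp F mkC n (trv F τ) = (2 : F) • Finsupp.single (mkC.comp τ) 1 := by
  have h : mkC.comp (traNeg.comp τ) = mkC.comp τ := by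
    ext t : 1
    exact mk_traNeg (τ t)
  rw [trv, map_add, smp_single, smp_single, h, two_smul]

private theorem tra_main (h1 : S_Cov) (h2 : (2 : F) ≠ 0) (n : ℕ)
    (hS : Subsingleton (Hq F (n + 1) S3)) : Subsingleton (Hq F (n + 1) RP3) := by
  choose L hL using h1.2.1
  -- the transfer
  let tr : (m : ℕ) → SC F RP3 m →ₗ[F] SC F S3 m := fun m =>
    Finsupp.linearCombination F (fun σ => trv F (L m σ))
  have htr : ∀ (m : ℕ) (σ : C(Sx m, RP3)), tr m (Finsupp.single σ 1) = trv F (L m σ) := by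
    intro m σ
    exact (Finsupp.linearCombination_single F _ _).trans (one_smul _ _)
  have hch : ∀ (m : ℕ) (c : SC F RP3 (m + 1)), sbd F m (tr (m + 1) c) = tr m (sbd F m c) := by
    intro m c
    have h : (sbd F m) ∘ₗ (tr (m + 1)) = (tr m) ∘ₗ (sbd F m) := by
      apply slin_ext
      intro σ
      rw [LinearMap.comp_apply, LinearMap.comp_apply, htr, sbd_trv, sbd_single, sbdv, map_sum]
      refine Finset.sum_congr rfl fun i _ => ?_
      rw [map_smul, htr]
      congr 1
      apply trv_eq F h1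
      intro t
      rw [hL]
      exact hL (m + 1) σ (smap i.succAbove t)
    exact LinearMap.congr_fun h c
  have hsm : ∀ (m : ℕ) (c : SC F RP3 m), smp F mkC m (tr m c) = (2 : F) • c := by
    intro m c
    have h : (smp F mkC m) ∘ₗ (tr m) = (2 : F) • LinearMap.id := by
      apply slin_ext
      intro σ
      rw [LinearMap.comp_apply, htr, smp_trv, LinearMap.smul_apply, LinearMap.id_apply]
      congr 2
      ext t : 1
      exact hL m σ t
    exact LinearMap.congr_fun h c
  constructor
  have key : ∀ x : Hq F (n + 1) RP3, x = 0 := by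
    intro x
    obtain ⟨z, rfl⟩ := cls_surjective F (n + 1) x
    have hz : sbd F n z.1 = 0 := z.2
    have hz' : tr (n + 1) z.1 ∈ Zc F S3 (n + 1) := by
      show sbd F n (tr (n + 1) z.1) = 0
      rw [hch, hz, map_zero]
    obtain ⟨y, hy⟩ := (cls_eq_zero F (⟨_, hz'⟩ : Zc F S3 (n + 1))).1 (Subsingleton.elim _ _)
    refine (cls_eq_zero F z).2 ⟨(2 : F)⁻¹ • smp F mkC (n + 2) y, ?_⟩
    rw [map_smul, sbd_smp, hy, hsm, smul_smul, inv_mul_cancel₀ h2, one_smul]
  intro x y
  rw [key x, key y]

end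

theorem qTra (h1 : S_Cov) (h2 : S_Sph) : S_Tra := by
  intro F _ hF
  exact ⟨tra_main F h1 hF 0 (h2 F).1, tra_main F h1 hF 1 (h2 F).2⟩

end Q

end TightRP
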