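import Pool.Agent.Lib.MP_7cdc3e_gt.Q.ConP
import Pool.Agent.Lib.MP_7cdc3e_gt.Q.Cov
import Pool.Agent.Lib.MP_7cdc3e_gt.Q.Cvh
import Pool.Agent.Lib.MP_7cdc3e_gt.Q.Dm4
import Pool.Agent.Lib.MP_7cdc3e_gt.Q.Drp
import Pool.Agent.Lib.MP_7cdc3e_gt.Q.E12
import Pool.Agent.Lib.MP_7cdc3e_gt.Q.Exp
import Pool.Agent.Lib.MP_7cdc3e_gt.Q.Fil
import Pool.Agent.Lib.MP_7cdc3e_gt.Q.FilE
import Pool.Agent.Lib.MP_7cdc3e_gt.Q.Hk
import Pool.Agent.Lib.MP_7cdc3e_gt.Q.Hom4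
import Pool.Agent.Lib.MP_7cdc3e_gt.Q.Inj
import Pool.Agent.Lib.MP_7cdc3e_gt.Q.Ne
import Pool.Agent.Lib.MP_7cdc3e_gt.Q.Ngh
import Pool.Agent.Lib.MP_7cdc3e_gt.Q.Odd
import Pool.Agent.Lib.MP_7cdc3e_gt.Q.Q2
import Pool.Agent.Lib.MP_7cdc3e_gt.Q.Rad
import Pool.Agent.Lib.MP_7cdc3e_gt.Q.Rl
import Pool.Agent.Lib.MP_7cdc3e_gt.Q.Sec
import Pool.Agent.Lib.MP_7cdc3e_gt.Q.Sph
import Pool.Agent.Lib.MP_7cdc3e_gt.Q.Sur1
import Pool.Agent.Lib.MP_7cdc3e_gt.Q.Sur2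
import Pool.Agent.Lib.MP_7cdc3e_gt.Q.Sys2
import Pool.Agent.Lib.MP_7cdc3e_gt.Q.Tra
import Pool.Agent.Lib.MP_7cdc3e_gt.Contr
import Pool.Agent.Lib.MP_7cdc3e_gt.H0Low
import Pool.Agent.Lib.MP_7cdc3e_gt.H0Path
import Pool.Agent.Lib.MP_7cdc3e_gt.Homeo
import Pool.Agent.Lib.MP_7cdc3e_gt.MVUp
import Pool.Agent.Lib.MP_7cdc3e_gt.RPHom
import Pool.Agent.Lib.MP_7cdc3e_gt.RPTop
import Pool.Agent.Lib.MP_7cdc3e_gt.Susp
import Pool.Agent.Lib.MP_7cdc3e_gt.Circle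
import Pool.Agent.Lib.MP_7cdc3e_gt.P3

/-!
# MP_7cdc3e_gt, part Q: assembly

The theorems of part Q without hypotheses.
-/

set_option autoImplicit false

namespace TightRP

namespace Q

theorem aSusp : SuspStmt := mSusp tContr tH0Path

theorem aCircle : CircleStmt := mCircle tContr tH0Path tH0Low

theorem aP3 : P3Stmt := mP3 aSusp aCircle

theorem aRPHom : RPHomStmt := rHom tContr tH0Path (tMVUp tContr tH0Path) tHomeo

theorem aSph : S_Sph := qSph aSusp aP3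

theorem aNgh : S_Ngh := qNgh qCvh

theorem aRad : S_Rad := qRad qExp

theorem aDm4 : S_Dm4 := qDm4 qRl aRad qSec

theorem aSur1 : S_Sur1 := qSur1 aNgh aRad qSec

theorem aSur2 : S_Sur2 := qSur2 aNgh aRad qSec

theorem aHk : S_Hk := qHk aCircle aSusp tHomeo

theorem aInj : S_Inj := qInj (qCon aNgh) (qNe aNgh) qExp

theorem aFil : S_Fil := qFil qDrp aDm4 aSur1 aSur2 aHk aInj (qNe aNgh)

theorem aHom4 : S_Hom4 := qHom4 aFil qCvh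

theorem aTra : S_Tra := qTra qCov aSph

theorem aOdd : S_Odd := qOdd qCov

theorem aE12 : S_E12 := qE12 qCov aOdd aTra aSph

theorem aSys2 : S_Sys2 := qSys2 tH0Low tH0Path

/-- Lemma FILL for projective space, over every field -/
theorem aFilE : S_FilE := qFilE aFil aSys2 aE12 rTop

/-- fields of characteristic different from two: `N ≤ 4` -/
theorem aQ2 : S_Q2 := qQ2 aHom4 aSys2 aTra rTop

end Q

end TightRP
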