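import Pool.Agent.Lib.MP_7cdc3e_gt.Q.Spec

/-!
# MP_7cdc3e_gt, part Q, Con: connected preimages
-/

set_option autoImplicit false

open HoloConj Pool.Agent.Lib.SingHom Module

namespace TightRP

namespace Q

theorem qCon (h1 : S_Ngh) : S_Con := by
  intro M _ _ _ N f hf hcon Φ hΦ g c
  have hgc : Continuous g := LinearMap.continuous_of_finiteDimensional g
  have hX : IsClosed {x | f x ∈ Φ ∧ c ≤ g (f x)} :=
    (hΦ.cls.preimage hf).inter (isClosed_le continuous_const (hgc.comp hf))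
  rw [isPreconnected_closed_iff]
  intro t t' ht ht' hsub hne hne'
  by_contra hemp
  rw [Set.not_nonempty_iff_eq_empty] at hemp
  have hdis : Disjoint ({x | f x ∈ Φ ∧ c ≤ g (f x)} ∩ t) ({x | f x ∈ Φ ∧ c ≤ g (f x)} ∩ t') := by
    rw [Set.disjoint_left]
    rintro x ⟨hx, hxt⟩ ⟨-, hxt'⟩
    have : x ∈ {x | f x ∈ Φ ∧ c ≤ g (f x)} ∩ (t ∩ t') := ⟨hx, hxt, hxt'⟩
    rw [hemp] at this
    exact this
  obtain ⟨O₁, O₂, hO₁, hO₂, h2, h3, h4⟩ := SeparatedNhds.of_isCompact_isCompact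
    (hX.inter ht).isCompact (hX.inter ht').isCompact hdis
  obtain ⟨l, b, h5, h6⟩ := h1 M N f hf Φ hΦ g c (O₁ ∪ O₂) (hO₁.union hO₂) (by
    intro x hx hxc
    rcases hsub (show x ∈ {x | f x ∈ Φ ∧ c ≤ g (f x)} from ⟨hx, hxc⟩) with h | h
    · exact Or.inl (h2 ⟨⟨hx, hxc⟩, h⟩)
    · exact Or.inr (h3 ⟨⟨hx, hxc⟩, h⟩))
  obtain ⟨x, hx, hxt⟩ := hne
  obtain ⟨x', hx', hxt'⟩ := hne'
  obtain ⟨z, -, hz₁, hz₂⟩ := hcon l b O₁ O₂ hO₁ hO₂ (fun z hz => h6 z hz)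
    ⟨x, h5 _ hx.1 hx.2, h2 ⟨hx, hxt⟩⟩ ⟨x', h5 _ hx'.1 hx'.2, h3 ⟨hx', hxt'⟩⟩
  exact Set.disjoint_left.1 h4 hz₁ hz₂

end Q

end TightRP
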