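import Pool.Agent.Lib.MP_7cdc3e_gt.Q.Spec

/-!
# MP_7cdc3e_gt, part Q: Hom4 (helper50)
-/

set_option autoImplicit false

open HoloConj Pool.Agent.Lib.SingHom Module

namespace TightRP

namespace Q

private theorem hom4Top {M : Type} [Nonempty M] {N : ℕ} {f : M → En N} (hsub : Substantial f) :
    vectorSpan ℝ (Kf f) = ⊤ := by
  by_contra hne
  obtain ⟨l, hl0, hl⟩ := Submodule.exists_le_ker_of_lt_top _ (lt_top_iff_ne_top.2 hne)
  obtain ⟨x₀⟩ := ‹Nonempty M›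
  refine hl0 (hsub l (l (f x₀)) fun x => ?_)
  have h1 : f x -ᵥ f x₀ ∈ vectorSpan ℝ (Kf f) :=
    vsub_mem_vectorSpan ℝ (subset_convexHull ℝ _ ⟨x, rfl⟩) (subset_convexHull ℝ _ ⟨x₀, rfl⟩)
  have h2 : l (f x - f x₀) = 0 := LinearMap.mem_ker.1 (hl h1)
  rw [map_sub] at h2
  linarith

theorem qHom4 (h1 : S_Fil) (h2 : S_Cvh) : S_Hom4 := by
  intro F _ M _ _ _ _ N f le3 hf hloc hsub c0 i1 i2 s1 s2
  by_contra hN
  have h5 : 5 ≤ N := by omega
  have hΦ : Fac f (Kf f) := by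
    refine ⟨IsExtreme.refl ℝ _, convex_convexHull ℝ _, (h2 N _ (isCompact_range hf)).isClosed, ?_⟩
    exact (Set.range_nonempty f).convexHull
  have hE : ∀ n, Subsingleton (Hq F n M) → Ev F f n (Kf f) := by
    intro n hn
    refine ⟨0, -1, fun y _ => ?_, fun z => Subsingleton.elim _ _⟩
    rw [LinearMap.zero_apply]
    norm_num
  have h3 := (h1 F M N f le3 h5 hf hloc hsub c0 i1 i2 (Kf f) hΦ (hE 1 s1) (hE 2 s2)).2
  unfold dm at h3
  rw [hom4Top hsub, finrank_top, finrank_euclideanSpace_fin] at h3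
  omega

end Q

end TightRP
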