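import Pool.Agent.Lib.MP_7cdc3e_gt.Spec
import Pool.Agent.Lib.InvDom.Manifold

/-!
# MP_7cdc3e_gt, part Q: even faces are filled; fields of characteristic different from two

`f : M → ℝ^N` is a tight topological immersion of a closed three-manifold, `K = conv f(M)`.  A face is
a nonempty closed convex extreme subset `Φ` of `K` (not necessarily exposed).  Lemma FILL: if a
half-space neighbourhood of `Φ` has a preimage `U` with `H_n(U) → H_n(M)` zero for `n = 1, 2` then every
point of `Φ` has exactly one preimage, and `dim Φ ≤ 3` (for `N ≥ 5`).  Consequence: for `M = RP³` and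
a field of characteristic `≠ 2` the dimension `N` is at most `4`.
Every `S_...` is a statement to be proved in its own file; the docstring contains the proof.
-/

set_option autoImplicit false

open HoloConj Pool.Agent.Lib.SingHom Module

namespace TightRP

namespace Q

/-- Euclidean space -/
abbrev En (N : ℕ) : Type := EuclideanSpace ℝ (Fin N)

section Defs

variable {M : Type} [TopologicalSpace M] {N : ℕ}

/-- the preimage of the open half-space `{b < l}` -/
def Hs (f : M → En N) (l : En N →ₗ[ℝ] ℝ) (b : ℝ) : Set M := {x | b < l (f x)}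

/-- the convex hull of the image -/
def Kf (f : M → En N) : Set (En N) := convexHull ℝ (Set.range f)

/-- `Φ` is a nonempty closed face of `K` -/
structure Fac (f : M → En N) (Φ : Set (En N)) : Prop where
  ext : IsExtreme ℝ (Kf f) Φ
  cvx : Convex ℝ Φ
  cls : IsClosed Φ
  ne : Φ.Nonempty

/-- every point of `Φ` has exactly one preimage -/
def Cell (f : M → En N) (Φ : Set (En N)) : Prop := ∀ y ∈ Φ, ∃! x, f x = y

/-- all proper faces of `Φ` are cells -/
def PCell (f : M → En N) (Φ : Set (En N)) : Prop :=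
  ∀ Ψ, Fac f Ψ → Ψ ⊆ Φ → Ψ ≠ Φ → Cell f Ψ

/-- `y` is a point of `Φ` which is in no proper face of `Φ` -/
def Rel (f : M → En N) (Φ : Set (En N)) (y : En N) : Prop :=
  y ∈ Φ ∧ ∀ Ψ, Fac f Ψ → Ψ ⊆ Φ → Ψ ≠ Φ → y ∉ Ψ

/-- the dimension of `Φ` -/
noncomputable def dm (Φ : Set (En N)) : ℕ := finrank ℝ (vectorSpan ℝ Φ)

/-- some half-space neighbourhood of `Φ` has a preimage `U` with `H_n(U) → H_n(M)` zero -/
def Ev (F : Type) [Field F] (f : M → En N) (n : ℕ) (Φ : Set (En N)) : Prop :=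
  ∃ (l : En N →ₗ[ℝ] ℝ) (b : ℝ), (∀ y ∈ Φ, b < l y) ∧
    ∀ z, Hmap F n (incl (Hs f l b)) z = 0

/-- the open half-spaces (also the degenerate ones) have connected preimages -/
def Con0 (f : M → En N) : Prop := ∀ l b, IsPreconnected (Hs f l b)

end Defs

/-- nonzero vectors -/
abbrev Nz (W : Type) [AddCommGroup W] : Type := {w : W // w ≠ 0}

/-! ## half-space neighbourhoods -/

/-- **Cvh** (60 lines).  The convex hull of a compact set of `ℝ^N` is compact.

Proof. Carathéodory (`convexHull_eq_union`, or `eq_pos_convex_span_of_mem_convexHull`): every point of the hull of `s ≠ ∅` is a convex combination of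
`N + 1` points of `s` (repeat points with coefficient `0`).  So the hull is the image of the compact set `stdSimplex ℝ (Fin (N+1)) × s^(N+1)` (`isCompact_univ_pi`,
`isCompact_stdSimplex`) under the continuous map `(t, x) ↦ ∑ t_i x_i`. -/
def S_Cvh : Prop := ∀ (N : ℕ) (s : Set (En N)), IsCompact s → IsCompact (convexHull ℝ s)

/-- **Ngh** (70 lines; uses `S_Cvh`).  Half-space neighbourhoods.

Proof. `A = f '' Oᶜ` is compact, `A ⊆ K`.  Claim: `convexHull A ∩ Φ ⊆ convexHull (A ∩ Φ)`.  Let `C' = {z ∈ K | z ∈ Φ → z ∈ convexHull (A ∩ Φ)}`; it contains `A`, and it is convex: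
if `x, y ∈ C'`, `z ∈ openSegment x y`, `z ∈ Φ` then `x, y ∈ Φ` (`IsExtreme`, both ends: `openSegment_symm`), so `x, y`, hence `z`, are in `convexHull (A ∩ Φ)` (`convex_iff_openSegment_subset`).
The points of `A ∩ Φ` have `g < c` (if `y = f x`, `x ∉ O`, `y ∈ Φ`, `c ≤ g y` then `x ∈ O`), so `convexHull (A ∩ Φ) ⊆ {g < c}`.  Hence the compact convex set `convexHull A` and the closed convex set
`Φ ∩ {c ≤ g}` are disjoint: `geometric_hahn_banach_compact_closed` gives `l`, `u < b'`; take `b = b'`: `l < u < b` on `A`, `b < l` on `Φ ∩ {c ≤ g}`. -/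
def S_Ngh : Prop := ∀ (M : Type) [TopologicalSpace M] [CompactSpace M] (N : ℕ) (f : M → En N),
  Continuous f → ∀ Φ, Fac f Φ → ∀ (g : En N →ₗ[ℝ] ℝ) (c : ℝ) (O : Set M), IsOpen O →
  (∀ x, f x ∈ Φ → c ≤ g (f x) → x ∈ O) →
  ∃ (l : En N →ₗ[ℝ] ℝ) (b : ℝ), (∀ y ∈ Φ, c ≤ g y → b < l y) ∧ ∀ x, b < l (f x) → x ∈ O

/-- **Ne** (20 lines; uses `S_Ngh`).

Proof. Otherwise `S_Ngh` with `O = ∅` gives `l`, `b` with `b < l y` and `l ≤ b` on `range f`, so `l ≤ b` on `K ∋ y` (`convexHull_min`, `IsExtreme.subset`). -/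
def S_Ne : Prop := ∀ (M : Type) [TopologicalSpace M] [CompactSpace M] (N : ℕ) (f : M → En N),
  Continuous f → ∀ Φ, Fac f Φ → ∀ (g : En N →ₗ[ℝ] ℝ) (c : ℝ), (∃ y ∈ Φ, c ≤ g y) →
  ∃ x, f x ∈ Φ ∧ c ≤ g (f x)

/-- **Con** (60 lines; uses `S_Ngh`).

Proof. `X = {x | f x ∈ Φ ∧ c ≤ g (f x)}` is compact.  `isPreconnected_closed_iff`: let `X ⊆ t ∪ t'`, `t, t'` closed, `X ∩ t`, `X ∩ t'` nonempty.  If `X ∩ (t ∩ t')` is empty then `X ∩ t`, `X ∩ t'` are disjoint
compact sets, so they are in disjoint open sets `O₁, O₂` (`IsCompact` in a `T2Space`: `SeparatedNhds`).  `S_Ngh` with `O = O₁ ∪ O₂`: `X ⊆ Hs f l b ⊆ O₁ ∪ O₂`; `Hs f l b` is preconnected and meets both: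
it meets `O₁ ∩ O₂ = ∅`. -/
def S_Con : Prop := ∀ (M : Type) [TopologicalSpace M] [T2Space M] [CompactSpace M] (N : ℕ)
  (f : M → En N), Continuous f → Con0 f → ∀ Φ, Fac f Φ → ∀ (g : En N →ₗ[ℝ] ℝ) (c : ℝ),
  IsPreconnected {x | f x ∈ Φ ∧ c ≤ g (f x)}

/-! ## convex geometry of a face -/

/-- **Exp** (40 lines).  Exposed faces of faces.

Proof. `IsExtreme` of `{y ∈ Φ | g y = c}` in `Φ`: if `x, x' ∈ Φ`, `z = a x + a' x'`, `a, a' > 0`, `g z = c` and `g x, g x' ≤ c` then `g x = g x' = c`.  `IsExtreme.trans`.  Convex, closed (a linear map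
on `En N` is continuous: `LinearMap.continuous_of_finiteDimensional`). -/
def S_Exp : Prop := ∀ (M : Type) [TopologicalSpace M] (N : ℕ) (f : M → En N) (Φ : Set (En N))
  (g : En N →ₗ[ℝ] ℝ) (c : ℝ), Fac f Φ → (∀ y ∈ Φ, g y ≤ c) → (∃ y ∈ Φ, g y = c) →
  Fac f {y | y ∈ Φ ∧ g y = c}

/-- **Rl** (50 lines).  Relative interior points.

Proof. `Φ` is convex and nonempty, so `intrinsicInterior ℝ Φ` contains some `y` (`Set.Nonempty.intrinsicInterior`).  Let `Ψ ⊆ Φ` be a face with `y ∈ Ψ`, `z ∈ Φ`, `z ≠ y`.  `y - ε (z - y) ∈ Φ` for some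
`ε > 0` (this point is in the affine span of `Φ` and near `y`), and `y` is in the open segment between `z` and it.  So `z ∈ Ψ` (`Ψ` is extreme in `K ⊇ Φ`): `Ψ = Φ`. -/
def S_Rl : Prop := ∀ (M : Type) [TopologicalSpace M] (N : ℕ) (f : M → En N) (Φ : Set (En N)),
  Fac f Φ → ∃ y, Rel f Φ y

/-- **Drp** (50 lines).  The dimension of a proper face is smaller.

Proof. `vectorSpan Ψ ≤ vectorSpan Φ`; if the dimensions are equal, the spans are equal (`Submodule.eq_of_le_of_finrank_le`), so (with a common point) the affine spans.  Let `y ∈ intrinsicInterior ℝ Ψ` and `z ∈ Φ`,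
`z ≠ y`.  `y - ε (z - y)` is in the affine span of `Ψ` and near `y`, so in `Ψ ⊆ Φ` for some `ε > 0`; `y` is in the open segment between `z` and it, so `z ∈ Ψ`.  Hence `Ψ = Φ`. -/
def S_Drp : Prop := ∀ (M : Type) [TopologicalSpace M] (N : ℕ) (f : M → En N) (Φ Ψ : Set (En N)),
  Fac f Φ → Fac f Ψ → Ψ ⊆ Φ → Ψ ≠ Φ → dm Ψ < dm Φ

/-- **Rad** (120 lines; uses `S_Exp`).  The radial map to the relative boundary.

Proof. `W = vectorSpan ℝ Φ`, `P = {w : W | y + w ∈ Φ}`: convex, closed, bounded (`Φ ⊆ K` is bounded, as `range f` is), `0 ∈ P`, and `P` spans `W` (`vectorSpan` is spanned by the differences `z - y`, `z ∈ Φ`).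
(a) `0 ∈ interior P`.  The interior of `P` is nonempty (a convex set which spans `W` and contains `0` has an interior point: `(convex).interior_nonempty_iff_affineSpan_eq_top`).  If `0 ∉ interior P` then
`geometric_hahn_banach_of_nonempty_interior_point` gives `g' : W → ℝ`, `g' ≠ 0`, `g' ≤ 0` on `P`.  Extend `g'` to `g` on `En N` (for instance `g = g' ∘ orthogonal projection`), `c = g y`: `Ψ = {z ∈ Φ | g z = c}` is a face (`S_Exp`)
with `y ∈ Ψ`; by `Rel` `Ψ = Φ`, so `g' = 0` on `P`, `g' = 0`: contradiction.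
(b) Let `w ≠ 0`.  `gauge P` is continuous (`continuous_gauge`), `gauge P w > 0` (`P` bounded: `gauge_pos`).  `ρ w = y + (gauge P w)⁻¹ • w`.  `w' = (gauge P w)⁻¹ • w` has `gauge P w' = 1`, so `w' ∈ closure P = P` and
`w' ∉ interior P` (`interior_subset_gauge_lt_one` and similar).  As in (a) there is `g'` with `g' ≤ g' w'` on `P`, `g' ≠ 0`; `Ψ = {z ∈ Φ | g z = g (y + w')}` is a face containing `ρ w`; if `Ψ = Φ` then `g'` is constant on `P`,
and `g' 0 = 0`, so `g' = 0` on `P`: contradiction. -/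
def S_Rad : Prop := ∀ (M : Type) [TopologicalSpace M] [CompactSpace M] (N : ℕ) (f : M → En N),
  Continuous f → ∀ Φ y, Fac f Φ → Rel f Φ y →
  ∃ ρ : Nz (vectorSpan ℝ Φ) → En N, Continuous ρ ∧
    (∀ w, ∃ t : ℝ, 0 < t ∧ ρ w = y + t • ((w : vectorSpan ℝ Φ) : En N)) ∧
    ∀ w, ∃ Ψ, Fac f Ψ ∧ Ψ ⊆ Φ ∧ Ψ ≠ Φ ∧ ρ w ∈ Ψ

/-- **Sec** (20 lines).  Continuity of the inverse.

Proof. For `C ⊆ M` closed: `s ⁻¹' C = ρ ⁻¹' (f '' C)` by uniqueness, and `f '' C` is compact, so closed. -/
def S_Sec : Prop := ∀ (M X Y : Type) [TopologicalSpace M] [CompactSpace M] [TopologicalSpace X]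
  [T2Space X] [TopologicalSpace Y] (f : M → X) (ρ : Y → X), Continuous f → Continuous ρ →
  (∀ y, ∃! x, f x = ρ y) → ∃ s : C(Y, M), ∀ y, f (s y) = ρ y

/-! ## the faces are cells -/

/-- **Inj** (170 lines; uses `S_Con`, `S_Ne`, `S_Exp`).

Proof. (0) `Φ` is compact.  If `Φ = {y}` then `{x | f x ∈ Φ}` is preconnected (`S_Con` with `g = 0`, `c = 0`), and every point of it is isolated in it (`LocInj`), so it has at most one point
(for `p ≠ p'` in it, a neighbourhood `U` of `p` with `InjOn f U` gives the clopen subset `{p}`).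
(1) Let `Φ` have two points `a ≠ b`; by boundedness there is `s > 0` with `o := b + s (b - a) ∉ Φ`.  `R = {(p,p') | p ≠ p' ∧ f p = f p' ∧ f p ∈ Φ}` is compact: its complement is open (near `(p,p)` by `LocInj`, near the other
points by continuity, `Φ` is closed).  `T` = the set of the values `f p`, `(p,p') ∈ R`: compact.  Suppose `T ≠ ∅`; let `y ∈ T` have maximal distance from `o` (`IsCompact.exists_isMaxOn`), `y = f p = f p'`, `p ≠ p'`.
`g z = ⟪y - o, z⟫`, `c = g y`, `D = Φ ∩ {c ≤ g}`.  `T ∩ D = {y}`: for `z ∈ T`, `‖z - o‖ ≤ ‖y - o‖`, `⟪y - o, z - o⟫ ≥ ‖y - o‖²` imply `z = y` (`‖z - y‖² = ‖z - o‖² - 2 ⟪z - o, y - o⟫ + ‖y - o‖² ≤ 0`).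
(2) There is `z₀ ∈ Φ` with `g z₀ > c`.  Otherwise `g ≤ c` on `Φ`, and `Ψ = {z ∈ Φ | g z = c}` is a face (`S_Exp`) containing `y`; if `Ψ ≠ Φ` then `Cell f Ψ` contradicts `f p = f p' = y`; if `Ψ = Φ` then `g a = g b = c`,
so `g o = g b + s (g b - g a) = c`, `‖y - o‖² = g y - g o = 0`, `o = y ∈ Φ`: contradiction.
(3) For `r > 0` the set `D_r = {z ∈ D | 0 < ‖z - y‖ < r}` is preconnected: choose `z₁ = y + t (z₀ - y) ∈ D_r` (small `t`; `g z₁ > c`).  For `z ∈ D_r` the segment `[z, z₁]` is in `D`, in the ball, and does not contain `y`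
(otherwise `y = α z + β z₁` with `β > 0` or `y = z`, and `c = g y = α g z + β g z₁ > c`).
(4) Choose an open `W ∋ p` with `y ∉ f '' (closure W \ {p})` (`LocInj`, `f` is injective on an open set around `p`; a compact Hausdorff space is regular), `W' = (closure W)ᶜ`, so `f x = y` implies `x ∈ W ∪ W'`, `p' ∈ W'`.
The set `{x | f x ∈ D} \ (W ∪ W')` is compact, its image does not contain `y`: there is `r > 0` with `f x ∈ D`, `‖f x - y‖ < r` implying `x ∈ W ∪ W'`.  `f` maps `E_r = {x | f x ∈ D_r}` bijectively to `D_r` (surjective by hypothesis,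
injective as `T ∩ D = {y}`); `E_r ⊆ W ∪ W'`; the images of `E_r ∩ W`, `E_r ∩ W'` are disjoint, cover `D_r`, and are closed in `D_r` (`E_r ∩ W = E_r \ W'`; images of compact sets
`{x | f x ∈ D} \ W'`).  So `E_r ⊆ W` or `E_r ⊆ W'`.
(5) `X = {x | f x ∈ D}` is preconnected (`S_Con`).  If `E_r ⊆ W` then `X ∩ W' ∩ {‖f x - y‖ < r} = {x | f x = y} \ W` is open and closed in `X`, contains `p'`, not `p`: contradiction.  If `E_r ⊆ W'` the same with `X ∩ W ∩ {‖f x - y‖ < r} = {p}`. -/
def S_Inj : Prop := ∀ (M : Type) [TopologicalSpace M] [T2Space M] [CompactSpace M] (N : ℕ)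
  (f : M → En N), Continuous f → LocInj f → Con0 f → ∀ Φ, Fac f Φ → PCell f Φ →
  (∀ y ∈ Φ, ∃ x, f x = y) → Cell f Φ

/-- **Sur1** (80 lines; uses `S_Ngh`, `S_Rad`, `S_Sec`).  Faces of dimension one.

Proof. Suppose `y ∈ Φ` has no preimage.  Then `Rel f Φ y` (`PCell`).  `ρ` from `S_Rad`, `s` from `S_Sec` (`ρ w` has exactly one preimage by `PCell`).  `W = vectorSpan ℝ Φ` has dimension one; `e ≠ 0` in `W`; `φ z = ⟪e, z - y⟫`.  For
`z ∈ Φ`, `z ≠ y`: `z - y` is a nonzero multiple of `e`, so `φ z ≠ 0`.  `O = {x | φ (f x) ≠ 0}` contains all `x` with `f x ∈ Φ`.  `S_Ngh` (`g = 0`, `c = 0`): `Hs f l b ⊆ O`, it is preconnected and contains `s e`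
(`φ > 0` there: `ρ e = y + t e`) and `s (-e)` (`φ < 0`): contradiction. -/
def S_Sur1 : Prop := ∀ (M : Type) [TopologicalSpace M] [T2Space M] [CompactSpace M] (N : ℕ)
  (f : M → En N), Continuous f → Con0 f → ∀ Φ, Fac f Φ → PCell f Φ → dm Φ = 1 →
  ∀ y ∈ Φ, ∃ x, f x = y

/-- **Hk** (60 lines; uses `CircleStmt`, `SuspStmt`, `HomeoStmt`).  Punctured spaces of dimension two and three.

Proof. A linear isomorphism with `EuclideanSpace ℝ (Fin k)` (`toEuclidean` or `ContinuousLinearEquiv.ofFinrankEq`) gives a homeomorphism `Nz W ≃ₜ Pn k`.  `H_1(Pn 2)` has rank `1`, `H_2(Pn 3) ≅ H_1(Pn 2)`. -/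
def S_Hk : Prop := ∀ (F : Type) [Field F] (W : Type) [NormedAddCommGroup W] [NormedSpace ℝ W]
  [FiniteDimensional ℝ W] (k : ℕ), k = 1 ∨ k = 2 → finrank ℝ W = k + 1 →
  ¬ Subsingleton (Hq F k (Nz W))

/-- **Sur2** (130 lines; uses `S_Ngh`, `S_Rad`, `S_Sec`).  Faces of dimension two and three.

Proof. Suppose `y ∈ Φ` has no preimage; `Rel f Φ y` by `PCell`.  `W = vectorSpan ℝ Φ`, `ρ`, `s : C(Nz W, M)` as in `S_Sur1`.  `π z` = the orthogonal projection of `z - y` to `W` (`W.orthogonalProjection`, `starProjection`); for `z ∈ Φ`: `π z = z - y`.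
`Ev` gives `l₀`, `b₀`.  `O = {x | π (f x) ≠ 0} ∩ Hs f l₀ b₀` is open and contains all `x` with `f x ∈ Φ`.  `S_Ngh` (`g = 0`, `c = 0`): `U = Hs f l b ⊆ O` with `b < l` on `Φ`.
(1) `H_k(U) = 0`: the inclusion `U → M` factors through `Hs f l₀ b₀` (`Hmap_comp`, in `MP_ed311f_ag/Hlem.lean`), so `H_k(U) → H_k(M)` is zero, and it is injective (`HInj`).
(2) `α : C(Nz W, U)`, `w ↦ s w` (`f (s w) = ρ w ∈ Φ`, so `b < l`), `β : C(U, Nz W)`, `x ↦ π (f x)`.  `β (α w) = π (ρ w) = t(w) w` with `t(w) > 0`: homotopic to the identity of `Nz W` by `((1 - τ) t(w) + τ) w` (`t(w)` is continuous,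
`t w = ‖ρ w - y‖ / ‖w‖`; or the homotopy `(1 - τ) π(ρ w) + τ w`).  So the identity of `H_k(Nz W)` factors through `H_k(U) = 0` (`Hmap_eq_of_homotopic`): `H_k(Nz W) = 0`: contradiction. -/
def S_Sur2 : Prop := ∀ (F : Type) [Field F] (M : Type) [TopologicalSpace M] [T2Space M]
  [CompactSpace M] (N : ℕ) (f : M → En N) (k : ℕ), Continuous f →
  (∀ l b, HInj F (Hs f l b) k) → ∀ Φ, Fac f Φ → PCell f Φ → Ev F f k Φ →
  ¬ Subsingleton (Hq F k (Nz (vectorSpan ℝ Φ))) → ∀ y ∈ Φ, ∃ x, f x = y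

/-- **Dm4** (110 lines; uses `S_Rl`, `S_Rad`, `S_Sec`, `InvDom.surjective_of_injective`).  There are no faces of dimension at least four whose proper faces are cells.

Proof. `y` from `S_Rl`, `W = vectorSpan ℝ Φ`, `ρ`, `s` as before.  Choose a subspace `W₄ ≤ W` of dimension four.  The unit sphere `S` of `W₄` is a compact manifold of dimension three (locally homeomorphic to
`EuclideanSpace ℝ (Fin 3)`: transport by a linear isometry from the sphere of `EuclideanSpace ℝ (Fin 4)`, which is a manifold by the stereographic charts), nonempty.  `h = s` on `S` is continuous and injective: `s w = s w'` gives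
`ρ w = ρ w'`, so `t w = t' w'` with `t, t' > 0` and norms `1`: `w = w'`.  `InvDom.surjective_of_injective` (`M` is preconnected, `T2`): `h` is surjective, so `f x - y = ρ w - y ∈ W₄` for all `x`.  A linear functional `l ≠ 0` on `En N`
which vanishes on `W₄` (`4 < N`) is constant on `f`: contradiction to `Substantial`. -/
def S_Dm4 : Prop := ∀ (M : Type) [TopologicalSpace M] [T2Space M] [CompactSpace M]
  [PreconnectedSpace M] (N : ℕ) (f : M → En N), LocEuc3 M → 5 ≤ N → Continuous f →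
  Substantial f → ∀ Φ, Fac f Φ → PCell f Φ → dm Φ ≤ 3

/-- **Fil** (70 lines; uses `S_Drp`, `S_Dm4`, `S_Sur1`, `S_Sur2`, `S_Hk`, `S_Inj`, `S_Ne`).  Lemma FILL.

Proof. Strong induction on `dm Φ`.  Proper faces `Ψ` of `Φ` have smaller dimension (`S_Drp`) and satisfy `Ev` (same half-space, `Ψ ⊆ Φ`), so they are cells: `PCell f Φ`.  `S_Dm4`: `dm Φ ≤ 3`.  `dm Φ = 0`: `Φ = {y}` (`vectorSpan` is `⊥`) and
`S_Ne` (`g = 0`, `c = 0`) gives a preimage; `dm Φ = 1`: `S_Sur1`; `dm Φ = 2, 3`: `S_Sur2` with `k = 1, 2` and `S_Hk`.  So `Φ ⊆ range f` and `S_Inj`. -/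
def S_Fil : Prop := ∀ (F : Type) [Field F] (M : Type) [TopologicalSpace M] [T2Space M]
  [CompactSpace M] [PreconnectedSpace M] (N : ℕ) (f : M → En N), LocEuc3 M → 5 ≤ N →
  Continuous f → LocInj f → Substantial f → Con0 f → (∀ l b, HInj F (Hs f l b) 1) →
  (∀ l b, HInj F (Hs f l b) 2) → ∀ Φ, Fac f Φ → Ev F f 1 Φ → Ev F f 2 Φ → Cell f Φ ∧ dm Φ ≤ 3

/-- **Hom4** (50 lines; uses `S_Fil`, `S_Cvh`).

Proof. Suppose `5 ≤ N`.  `Φ = K = Kf f` is a face (compact by `S_Cvh`, so closed; nonempty) and satisfies `Ev` with `l = 0`, `b = -1` (the preimage is `M`, `H_n(M) = 0`).  `S_Fil`: `dm K ≤ 3`.  But `dm K = N` by `Substantial`: if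
`vectorSpan ℝ K ≠ ⊤` there is a functional `l ≠ 0` which vanishes on it, so it is constant on `f`. -/
def S_Hom4 : Prop := ∀ (F : Type) [Field F] (M : Type) [TopologicalSpace M] [T2Space M]
  [CompactSpace M] [ConnectedSpace M] (N : ℕ) (f : M → En N), LocEuc3 M →
  Continuous f → LocInj f → Substantial f → Con0 f → (∀ l b, HInj F (Hs f l b) 1) →
  (∀ l b, HInj F (Hs f l b) 2) → Subsingleton (Hq F 1 M) → Subsingleton (Hq F 2 M) → N ≤ 4

/-! ## projective space -/

/-- the unit sphere of `ℝ⁴` -/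
abbrev S3 : Type := Metric.sphere (0 : EuclideanSpace ℝ (Fin 4)) 1

/-- the projection -/
def mk (x : S3) : RP3 := Quotient.mk antipodal x

/-- the projection as a continuous map -/
def mkC : C(S3, RP3) := ⟨mk, continuous_quotient_mk'⟩

/-- **Sph** (50 lines; uses `SuspStmt`, `P3Stmt`).  `H_1(S³) = H_2(S³) = 0`.

Proof. `S³` is a retract of `Pn 4` (`x ↦ x / |x|`), so `H_n(S³)` embeds in `H_n(Pn 4)`.  `H_2(Pn 4) ≅ H_1(Pn 3) = 0` (`SuspStmt` with `n = 3`, `k = 0`; `P3Stmt`), `H_1(Pn 4) = 0` (`SuspStmt`, second part, `Pn 3` is path connected). -/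
def S_Sph : Prop := ∀ (F : Type) [Field F], Subsingleton (Hq F 1 S3) ∧ Subsingleton (Hq F 2 S3)

/-- **Cov** (100 lines).  `mk` is a covering map, and lifts of simplices exist.

Proof. (a) For `x ∈ S³` the set `U = {mk y | ⟪x, y⟫ ≠ 0}` is open and is evenly covered by the two open sets `{⟪x, y⟫ > 0}`, `{⟪x, y⟫ < 0}` (see also `RPTop.lean`, `RPHom.lean`, and Mathlib `IsCoveringMap.mk`, `IsEvenlyCovered`; or use
`IsCoveringMap` of a quotient by a properly discontinuous action of `ℤˣ`).  (b) The projection `EuclideanSpace → stdSimplex` is not needed: `Sx n` is a retract of `Fin (n+1) → ℝ` (nearest point, or `max(·,0)` normalized after adding a constant; any continuous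
retraction `r`), which is simply connected and locally path connected; lift `σ ∘ r` (`IsCoveringMap.existsUnique_continuousMap_lifts`) and restrict.  (c) Two lifts `τ, τ'` of the same map on a connected space: `{τ = τ'}` and `{τ = -τ'}` are
closed, disjoint and cover. -/
def S_Cov : Prop := IsCoveringMap mk ∧
  (∀ (n : ℕ) (σ : C(Sx n, RP3)), ∃ τ : C(Sx n, S3), ∀ t, mk (τ t) = σ t) ∧
  ∀ (T : Type) [TopologicalSpace T] [PreconnectedSpace T] (τ τ' : C(T, S3)),
    (∀ t, mk (τ t) = mk (τ' t)) → τ = τ' ∨ ∀ t, τ' t = -τ t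

/-- **Tra** (120 lines; uses `S_Cov`, `S_Sph`).  The transfer.

Proof. Choose a lift `L σ` of every singular simplex `σ` of `RP³`.  `tr σ = L σ + (- L σ)` (`- L σ` composed with the antipodal map) extends linearly to `tr : SC F RP3 n → SC F S3 n`.  It is a chain map: `(L σ) ∘ δ_i` is a lift of `σ ∘ δ_i`, so it is
`L (σ δ_i)` or its negative (`S_Cov`).  `smp mk (tr c) = 2 c`.  Let `n = 1, 2` and `z` a cycle: `tr z` is a cycle, so a boundary `∂ w` (`S_Sph`, `cls_eq_zero`), and `z = ∂ (2⁻¹ smp mk w)`. -/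
def S_Tra : Prop := ∀ (F : Type) [Field F], (2 : F) ≠ 0 →
  Subsingleton (Hq F 1 RP3) ∧ Subsingleton (Hq F 2 RP3)

/-- **Odd** (90 lines; uses `S_Cov`).  In characteristic two the projection of a path from `x` to `-x` is not a boundary.

Proof. Choose `h : S3 → F` with `h (-x) = 1 + h x` (from a choice of one of `x, -x`).  `θ : SC F RP3 1 → F`, `θ σ = h (L σ (1)) + h (L σ (0))` for a lift `L σ` (end points of the simplex); independent of the lift in characteristic two.  For a singular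
`2`-simplex `σ` with lift `L σ` the faces of `L σ` are lifts of the faces of `σ`, so `θ (∂ σ) = 0`: `θ` vanishes on boundaries.  `θ` of the cycle `smp mk τ` is `h (-x) + h x = 1`. -/
def S_Odd : Prop := ∀ (F : Type) [Field F], (2 : F) = 0 → ∀ τ : C(Sx 1, S3),
  τ (stdSimplex.vertex 1) = -τ (stdSimplex.vertex 0) →
  ¬ IsBdry F 1 (Finsupp.single (mkC.comp τ) 1 : SC F RP3 1)

/-- **E12** (130 lines; uses `S_Cov`, `S_Odd`, `S_Tra`, `S_Sph`).  Even open sets have no `H_2` in `RP³`.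

Proof. `U = ∅`: the chain groups are `0`.  `2 ≠ 0`: `S_Tra`.  Let `2 = 0`.  `V = mk ⁻¹' U` is open in `S³`, invariant under `x ↦ -x`.  Let `A` be a component of a point `x₀` in `V` (`connectedComponentIn`): open (`S³` is locally connected), path connected.  If `-x₀ ∈ A` there is a
path in `V` from `x₀` to `-x₀`; its projection is a cycle `z` in `U` which goes to a non-boundary of `RP³` (`S_Odd`), contradiction to the hypothesis (`Hmap_cls`, `cls_eq_zero`).  So `A ∩ (-A) = ∅` (otherwise `A = -A`, as `-A` is the component of `-x₀`).  `mk '' A` is open, and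
`U = mk '' A`: the sets `mk '' B`, `B` a component of `V`, are open, cover the connected set `U`, and are equal or disjoint (if `mk a = mk b` then `b = a` or `b = -a`, so `B = A` or `B = -A`).  So `mk : A → U` is a continuous open bijection, its inverse is a lift
`j : C(U, S3)` of the inclusion, `mk ∘ j = incl U`.  `Hmap F 2 (incl U) = Hmap F 2 mk ∘ Hmap F 2 j = 0` as `H_2(S³) = 0`. -/
def S_E12 : Prop := ∀ (F : Type) [Field F] (U : Set RP3), IsOpen U → IsPreconnected U →
  (∀ z, Hmap F 1 (incl U) z = 0) → ∀ z, Hmap F 2 (incl U) z = 0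

/-- **Sys2** (60 lines; uses `H0LowStmt`, `H0PathStmt`).  The hypotheses for all half-spaces, also the degenerate ones.

Proof. `l ≠ 0`: `TightUpTo`.  `l = 0`: the preimage is `∅` or `M`: the chain groups of `∅` are `0` (`Sx n` is nonempty); for `M` the inclusion is a homeomorphism (`HomeoStmt` or functoriality).  Connectedness: as in
`MP_7cdc3e_gt/A/Conn.lean` (module `Conn`): if `Hs f l b` is not preconnected there is a continuous surjection to `Fin 2`, so `rank H_0 ≥ 2` (`H0LowStmt`), but it injects into `H_0(M)`, of rank `1` (`H0PathStmt`). -/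
def S_Sys2 : Prop := ∀ (F : Type) [Field F] (M : Type) [TopologicalSpace M]
  [PathConnectedSpace M] (N : ℕ) (f : M → En N), Continuous f → TightUpTo 2 F f →
  Con0 f ∧ ∀ l b, ∀ n ≤ 2, HInj F (Hs f l b) n

/-- **FilE** (50 lines; uses `S_Fil`, `S_Sys2`, `S_E12`).  Lemma FILL for projective space.

Proof. `S_Sys2`.  `Ev F f 1 Φ` gives a half-space; its preimage is open and preconnected, so `S_E12` gives `Ev F f 2 Φ`.  `RP3` is `T2`, compact, path connected and `LocEuc3` (`RPTop.lean`). -/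
def S_FilE : Prop := ∀ (F : Type) [Field F] (N : ℕ) (f : RP3 → En N), 5 ≤ N →
  Continuous f → LocInj f → Substantial f → TightUpTo 2 F f → ∀ Φ, Fac f Φ → Ev F f 1 Φ →
  Cell f Φ ∧ dm Φ ≤ 3

/-- **Q2** (30 lines; uses `S_Hom4`, `S_Sys2`, `S_Tra`).  Characteristic different from two. -/
def S_Q2 : Prop := ∀ (F : Type) [Field F], (2 : F) ≠ 0 → ∀ (N : ℕ) (f : RP3 → En N),
  Continuous f → LocInj f → Substantial f → TightUpTo 2 F f → N ≤ 4

end Q

end TightRP
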