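import Pool.Agent.Lib.MP_7cdc3e_gt.Q.Spec

/-!
# MP_7cdc3e_gt, Q/Sur2: faces of dimension two and three are filled
-/

set_option autoImplicit false

open HoloConj Pool.Agent.Lib.SingHom Module

namespace TightRP

namespace Q

theorem qSur2 (h1 : S_Ngh) (h2 : S_Rad) (h3 : S_Sec) : S_Sur2 := by
  intro F _ M _ _ _ N f k hf hinj Φ hΦ hP hEv hns y hy
  by_contra hcon
  push Not at hcon
  have hRel : Rel f Φ y := by
    refine ⟨hy, fun Ψ hΨ hsub hne hyΨ => ?_⟩
    obtain ⟨x, hx, _⟩ := hP Ψ hΨ hsub hne y hyΨ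
    exact hcon x hx
  obtain ⟨ρ, hρ, hρt, hρΨ⟩ := h2 M N f hf Φ y hΦ hRel
  obtain ⟨s, hs⟩ := h3 M (En N) (Nz (vectorSpan ℝ Φ)) f ρ hf hρ (fun w => by
    obtain ⟨Ψ, hΨ, hsub, hne, hw⟩ := hρΨ w
    exact hP Ψ hΨ hsub hne _ hw)
  -- the points of `Φ`
  have hW : ∀ z ∈ Φ, z - y ∈ vectorSpan ℝ Φ := fun z hz => vsub_mem_vectorSpan ℝ hz hy
  have hρW : ∀ w : Nz (vectorSpan ℝ Φ), ρ w ∈ Φ := fun w => by
    obtain ⟨Ψ, hΨ, hsub, hne, hw⟩ := hρΨ w
    exact hsub hw
  let π : En N → vectorSpan ℝ Φ := fun z => (vectorSpan ℝ Φ).orthogonalProjectionOnto (z - y)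
  have hπ : Continuous π := by
    exact ((vectorSpan ℝ Φ).orthogonalProjectionOnto).continuous.comp (continuous_id.sub continuous_const)
  have hπe : ∀ z, (hz : z - y ∈ vectorSpan ℝ Φ) → π z = ⟨z - y, hz⟩ := fun z hz =>
    Submodule.orthogonalProjectionOnto_mem_subspace_eq_self (⟨z - y, hz⟩ : vectorSpan ℝ Φ)
  obtain ⟨l₀, b₀, hl₀, hz₀⟩ := hEv
  have hopen : ∀ (l : En N →ₗ[ℝ] ℝ) (b : ℝ), IsOpen (Hs f l b) := fun l b =>
    isOpen_lt continuous_const ((LinearMap.continuous_of_finiteDimensional l).comp hf)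
  obtain ⟨l, b, hlb, hO⟩ := h1 M N f hf Φ hΦ 0 0 ({x | π (f x) ≠ 0} ∩ Hs f l₀ b₀)
    ((isOpen_ne_fun (hπ.comp hf) continuous_const).inter (hopen l₀ b₀)) (fun x hx _ => by
      refine ⟨?_, hl₀ _ hx⟩
      show π (f x) ≠ 0
      rw [hπe _ (hW _ hx)]
      intro h
      have h' : f x - y = 0 := congrArg Subtype.val h
      exact hcon x (sub_eq_zero.1 h'))
  have hlb' : ∀ z ∈ Φ, b < l z := fun z hz => hlb z hz (le_refl _)
  -- the homology of `U`
  let j : C(Hs f l b, Hs f l₀ b₀) :=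
    ⟨fun x => ⟨x.1, (hO x.1 x.2).2⟩, continuous_subtype_val.subtype_mk _⟩
  have hj : incl (Hs f l b) = (incl (Hs f l₀ b₀)).comp j := rfl
  have hU : ∀ z : Hq F k (Hs f l b), z = 0 := by
    intro z
    apply hinj l b
    rw [map_zero, hj, Hmap_comp_apply]
    exact hz₀ _
  -- the two maps
  have hsb : ∀ w, s w ∈ Hs f l b := fun w => by
    show b < l (f (s w))
    rw [hs]
    exact hlb' _ (hρW w)
  let α : C(Nz (vectorSpan ℝ Φ), Hs f l b) :=
    ⟨fun w => ⟨s w, hsb w⟩, (map_continuous s).subtype_mk hsb⟩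
  let β : C(Hs f l b, Nz (vectorSpan ℝ Φ)) :=
    ⟨fun x => ⟨π (f x.1), (hO x.1 x.2).1⟩,
      (hπ.comp (hf.comp continuous_subtype_val)).subtype_mk _⟩
  have hαβ : ∀ w, ∃ t : ℝ, 0 < t ∧ ((β (α w) : Nz (vectorSpan ℝ Φ)) : vectorSpan ℝ Φ) =
      t • (w : vectorSpan ℝ Φ) := by
    intro w
    obtain ⟨t, ht, hw⟩ := hρt w
    refine ⟨t, ht, ?_⟩
    show π (f (s w)) = _
    rw [hs, hπe _ (hW _ (hρW w))]
    apply Subtype.ext
    show ρ w - y = t • ((w : vectorSpan ℝ Φ) : En N)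
    rw [hw, add_sub_cancel_left]
  have hhom : (β.comp α).Homotopic (ContinuousMap.id (Nz (vectorSpan ℝ Φ))) := by
    refine ⟨{ toFun := fun p => ⟨(1 - (p.1 : ℝ)) • ((β (α p.2) : Nz (vectorSpan ℝ Φ)) :
                vectorSpan ℝ Φ) + (p.1 : ℝ) • ((p.2 : Nz (vectorSpan ℝ Φ)) : vectorSpan ℝ Φ), ?_⟩
              continuous_toFun := ?_
              map_zero_left := ?_
              map_one_left := ?_ }⟩
    · obtain ⟨t, ht, hw⟩ := hαβ p.2
      rw [hw, smul_smul, ← add_smul]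
      refine smul_ne_zero ?_ p.2.2
      have h0 := p.1.2.1
      have h1 := p.1.2.2
      rcases eq_or_lt_of_le h0 with h | h
      · rw [← h]
        simpa using ht.ne'
      · have : 0 ≤ (1 - (p.1 : ℝ)) * t := mul_nonneg (by linarith) ht.le
        exact (by linarith : 0 < (1 - (p.1 : ℝ)) * t + (p.1 : ℝ)).ne'
    · refine Continuous.subtype_mk ?_ _
      have c1 : Continuous fun p : unitInterval × Nz (vectorSpan ℝ Φ) =>
          ((β (α p.2) : Nz (vectorSpan ℝ Φ)) : vectorSpan ℝ Φ) :=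
        continuous_subtype_val.comp ((map_continuous β).comp ((map_continuous α).comp
          continuous_snd))
      have c2 : Continuous fun p : unitInterval × Nz (vectorSpan ℝ Φ) => (p.1 : ℝ) :=
        continuous_subtype_val.comp continuous_fst
      exact ((continuous_const.sub c2).smul c1).add
        (c2.smul (continuous_subtype_val.comp continuous_snd))
    · intro w
      apply Subtype.ext
      simp
    · intro w
      apply Subtype.ext
      simp
  apply hns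
  have key : ∀ z : Hq F k (Nz (vectorSpan ℝ Φ)), z = 0 := by
    intro z
    have e1 : Hmap F k (ContinuousMap.id (Nz (vectorSpan ℝ Φ))) z = z := by
      rw [Hmap_id]
      rfl
    rw [← e1, ← Hmap_eq_of_homotopic F k hhom, Hmap_comp_apply, hU (Hmap F k α z), map_zero]
  exact ⟨fun a b => by rw [key a, key b]⟩

end Q

end TightRP
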